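import Pool.Agent.Helper484.KissPoly

/-!
The kissing number of `ℝ³` is at most `12`: a finite set of unit vectors of `ℝ³` with pairwise
inner products at most `1/2` has at most `12` elements (Delsarte's linear programming method with
Musin's refinement).
-/

set_option autoImplicit false

namespace Helper484.Kissing

open scoped BigOperators

/-- Cauchy–Schwarz with a unit vector. -/
lemma inner_sq_le (x v : E3) (hx : ‖x‖ = 1) : (inner ℝ x v : ℝ) ^ 2 ≤ inner ℝ v v := by
  have h := real_inner_mul_inner_self_le x v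
  rw [real_inner_self_eq_norm_sq x, hx] at h
  nlinarith

lemma pair_bound (x y z : E3) (hx : ‖x‖ = 1) (hy : ‖y‖ = 1) (hz : ‖z‖ = 1)
    (hyz : (inner ℝ y z : ℝ) ≤ 1 / 2) (s t : ℝ) (hs : (inner ℝ x y : ℝ) = -s)
    (ht : (inner ℝ x z : ℝ) = -t) (hs0 : 1 / 2 ≤ s) (ht0 : 1 / 2 ≤ t) :
    s ^ 2 + t ^ 2 - s * t ≤ 3 / 4 := by
  have hs1 : s ≤ 1 := by
    have := inner_sq_le x y hx
    rw [hs, real_inner_self_eq_norm_sq, hy] at this
    nlinarith
  have ht1 : t ≤ 1 := by
    have := inner_sq_le x z hx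
    rw [ht, real_inner_self_eq_norm_sq, hz] at this
    nlinarith
  set a : ℝ := s - t / 2 with ha
  set b : ℝ := t - s / 2 with hb
  have ha0 : 0 ≤ a := by rw [ha]; linarith
  have hb0 : 0 ≤ b := by rw [hb]; linarith
  have h := inner_sq_le x (a • y + b • z) hx
  have hyy : (inner ℝ y y : ℝ) = 1 := by rw [real_inner_self_eq_norm_sq, hy]; norm_num
  have hzz : (inner ℝ z z : ℝ) = 1 := by rw [real_inner_self_eq_norm_sq, hz]; norm_num
  simp only [inner_add_left, inner_add_right, inner_smul_left, inner_smul_right,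
    RCLike.conj_to_real, hs, ht, hyy, hzz] at h
  rw [real_inner_comm y z] at h
  have h2 : a * (b * (inner ℝ y z : ℝ)) ≤ a * (b * (1 / 2)) := by
    apply mul_le_mul_of_nonneg_left _ ha0
    exact mul_le_mul_of_nonneg_left hyz hb0
  have h3 : (s ^ 2 + t ^ 2 - s * t) ^ 2 ≤ 3 / 4 * (s ^ 2 + t ^ 2 - s * t) := by
    have e1 : (a * -s + b * -t) = -(s ^ 2 + t ^ 2 - s * t) := by rw [ha, hb]; ring
    have e2 : a * (a * 1) + b * (b * 1) + 2 * (a * (b * (1 / 2))) = 3 / 4 * (s ^ 2 + t ^ 2 - s * t) := by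
      rw [ha, hb]; ring
    rw [e1] at h
    nlinarith
  have h4 : 0 < s ^ 2 + t ^ 2 - s * t := by nlinarith [sq_nonneg (s - t)]
  by_contra hcon
  push Not at hcon
  nlinarith

lemma triple_bound (x y z u : E3) (hx : ‖x‖ = 1) (hy : ‖y‖ = 1) (hz : ‖z‖ = 1) (hu : ‖u‖ = 1)
    (hyz : (inner ℝ y z : ℝ) ≤ 1 / 2) (hyu : (inner ℝ y u : ℝ) ≤ 1 / 2)
    (hzu : (inner ℝ z u : ℝ) ≤ 1 / 2) (r s t : ℝ)
    (hr : (inner ℝ x y : ℝ) = -r) (hs : (inner ℝ x z : ℝ) = -s)
    (ht : (inner ℝ x u : ℝ) = -t) (hr0 : 70711/100000 ≤ r) (hs0 : 70711/100000 ≤ s)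
    (ht0 : 70711/100000 ≤ t) :
    r ^ 2 + s ^ 2 + t ^ 2 - (r + s + t) ^ 2 / 4 ≤ 1 / 2 ∧ (r + s + t) ^ 2 ≤ 6 := by
  have hyy : (inner ℝ y y : ℝ) = 1 := by rw [real_inner_self_eq_norm_sq, hy]; norm_num
  have hzz : (inner ℝ z z : ℝ) = 1 := by rw [real_inner_self_eq_norm_sq, hz]; norm_num
  have huu : (inner ℝ u u : ℝ) = 1 := by rw [real_inner_self_eq_norm_sq, hu]; norm_num
  have key : ∀ a b c : ℝ, 0 ≤ a → 0 ≤ b → 0 ≤ c →
      (a * r + b * s + c * t) ^ 2 ≤ a ^ 2 + b ^ 2 + c ^ 2 + a * b + a * c + b * c := by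
    intro a b c ha hb hc
    have h := inner_sq_le x (a • y + b • z + c • u) hx
    simp only [inner_add_left, inner_add_right, inner_smul_left, inner_smul_right,
      RCLike.conj_to_real, hr, hs, ht, hyy, hzz, huu] at h
    rw [real_inner_comm y z, real_inner_comm y u, real_inner_comm z u] at h
    have h2 : a * b * (inner ℝ y z : ℝ) ≤ a * b * (1 / 2) :=
      mul_le_mul_of_nonneg_left hyz (mul_nonneg ha hb)
    have h3 : a * c * (inner ℝ y u : ℝ) ≤ a * c * (1 / 2) :=
      mul_le_mul_of_nonneg_left hyu (mul_nonneg ha hc)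
    have h4 : b * c * (inner ℝ z u : ℝ) ≤ b * c * (1 / 2) :=
      mul_le_mul_of_nonneg_left hzu (mul_nonneg hb hc)
    linarith
  have h6 : (r + s + t) ^ 2 ≤ 6 := by
    have := key 1 1 1 (by norm_num) (by norm_num) (by norm_num)
    linarith
  refine ⟨?_, h6⟩
  have hsum : r + s + t ≤ 5 / 2 := by nlinarith
  have h := key (r - (r + s + t) / 4) (s - (r + s + t) / 4) (t - (r + s + t) / 4)
    (by linarith) (by linarith) (by linarith)
  set R : ℝ := r ^ 2 + s ^ 2 + t ^ 2 - (r + s + t) ^ 2 / 4 with hR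
  have e1 : (r - (r + s + t) / 4) * r + (s - (r + s + t) / 4) * s + (t - (r + s + t) / 4) * t = R := by
    rw [hR]; ring
  have e2 : (r - (r + s + t) / 4) ^ 2 + (s - (r + s + t) / 4) ^ 2 + (t - (r + s + t) / 4) ^ 2
      + (r - (r + s + t) / 4) * (s - (r + s + t) / 4) + (r - (r + s + t) / 4) * (t - (r + s + t) / 4)
      + (s - (r + s + t) / 4) * (t - (r + s + t) / 4) = R / 2 := by
    rw [hR]; ring
  rw [e1, e2] at h
  have hfin : ∀ R : ℝ, R ^ 2 ≤ R / 2 → R ≤ 1 / 2 := by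
    intro R hR
    nlinarith
  exact hfin R h

/-- Four vectors orthogonal to `x` with pairwise negative inner products do not exist. -/
lemma no_four (x : E3) (hx : ‖x‖ = 1) (v : Fin 4 → E3) (horth : ∀ i, (inner ℝ x (v i) : ℝ) = 0)
    (hneg : ∀ i j, i ≠ j → (inner ℝ (v i) (v j) : ℝ) < 0) : False := by
  classical
  have hdep : ¬ LinearIndependent ℝ (![x, v 0, v 1, v 2] : Fin 4 → E3) := by
    intro h
    have := h.fintype_card_le_finrank
    simp at this
  rw [Fintype.not_linearIndependent_iff] at hdep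
  obtain ⟨g, hg, i0, hi0⟩ := hdep
  rw [Fin.sum_univ_four] at hg
  simp only [Matrix.cons_val_zero, Matrix.cons_val_one, Matrix.cons_val] at hg
  have hxx : (inner ℝ x x : ℝ) = 1 := by rw [real_inner_self_eq_norm_sq, hx]; norm_num
  have hg0 : g 0 = 0 := by
    have := congrArg (fun z => (inner ℝ x z : ℝ)) hg
    simp only [inner_add_right, inner_smul_right, horth, hxx, inner_zero_right] at this
    linarith
  -- positive and negative parts
  set l : Fin 3 → ℝ := ![g 1, g 2, g 3] with hl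
  have hsum : ∑ i : Fin 3, l i • v (Fin.castSucc i) = 0 := by
    rw [Fin.sum_univ_three]
    rw [hg0, zero_smul, zero_add] at hg
    simpa [hl] using hg
  have hpn : ∑ i : Fin 3, (max (l i) 0) • v (Fin.castSucc i)
      = ∑ i : Fin 3, (max (-l i) 0) • v (Fin.castSucc i) := by
    rw [← sub_eq_zero, ← Finset.sum_sub_distrib, ← hsum]
    refine Finset.sum_congr rfl (fun i _ => ?_)
    rw [← sub_smul]
    congr 1
    rcases le_total (l i) 0 with h | h
    · rw [max_eq_right h, max_eq_left (by linarith : (0:ℝ) ≤ -l i)]; ring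
    · rw [max_eq_left h, max_eq_right (by linarith : -l i ≤ 0)]; ring
  have hu : (inner ℝ (∑ i : Fin 3, (max (l i) 0) • v (Fin.castSucc i))
      (∑ i : Fin 3, (max (l i) 0) • v (Fin.castSucc i)) : ℝ) ≤ 0 := by
    nth_rw 2 [hpn]
    rw [sum_inner]
    refine Finset.sum_nonpos (fun i _ => ?_)
    rw [inner_sum]
    refine Finset.sum_nonpos (fun j _ => ?_)
    rw [inner_smul_left, inner_smul_right, RCLike.conj_to_real]
    by_cases hij : i = j
    · subst hij
      rcases le_total (l i) 0 with h | h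
      · rw [max_eq_right h]; simp
      · rw [max_eq_right (by linarith : -l i ≤ 0)]; simp
    · have h1 := hneg (Fin.castSucc i) (Fin.castSucc j) (by
        intro h; exact hij (Fin.castSucc_injective _ h))
      have h2 : 0 ≤ max (l i) 0 := le_max_right _ _
      have h3 : 0 ≤ max (-l j) 0 := le_max_right _ _
      have h4 : max (l i) 0 * (max (-l j) 0 * (inner ℝ (v (Fin.castSucc i)) (v (Fin.castSucc j)) : ℝ)) ≤ 0 :=
        mul_nonpos_of_nonneg_of_nonpos h2 (mul_nonpos_of_nonneg_of_nonpos h3 h1.le)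
      exact h4
  have hz : (∑ i : Fin 3, (max (l i) 0) • v (Fin.castSucc i)) = 0 := by
    rw [← inner_self_eq_zero (𝕜 := ℝ)]
    exact le_antisymm hu real_inner_self_nonneg
  have hpart : ∀ m : Fin 3 → ℝ, (∀ i, 0 ≤ m i) → (∑ i : Fin 3, m i • v (Fin.castSucc i)) = 0 →
      ∀ i, m i = 0 := by
    intro m hm hs
    have h1 := congrArg (fun z => (inner ℝ z (v 3) : ℝ)) hs
    simp only [sum_inner, inner_smul_left, RCLike.conj_to_real, inner_zero_left] at h1
    have h2 : ∀ i ∈ (Finset.univ : Finset (Fin 3)),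
        m i * (inner ℝ (v (Fin.castSucc i)) (v 3) : ℝ) ≤ 0 := by
      intro i _
      exact mul_nonpos_of_nonneg_of_nonpos (hm i) (hneg _ _ (by
        intro h
        have := congrArg Fin.val h
        simp at this
        omega)).le
    have h3 := (Finset.sum_eq_zero_iff_of_nonpos h2).mp h1
    intro i
    have h4 := h3 i (Finset.mem_univ i)
    rcases mul_eq_zero.mp h4 with h5 | h5
    · exact h5
    · exfalso
      have := hneg (Fin.castSucc i) 3 (by
        intro h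
        have := congrArg Fin.val h
        simp at this
        omega)
      linarith
  have hp := hpart _ (fun i => le_max_right (l i) 0) hz
  have hn := hpart _ (fun i => le_max_right (-l i) 0) (by rw [← hpn]; exact hz)
  have hl0 : ∀ i, l i = 0 := by
    intro i
    have h1 := hp i
    have h2 := hn i
    have h3 : l i ≤ 0 := by rw [← h1]; exact le_max_left _ _
    have h4 : -l i ≤ 0 := by rw [← h2]; exact le_max_left _ _
    linarith
  have e1 := hl0 0
  have e2 := hl0 1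
  have e3 := hl0 2
  simp [hl] at e1 e2 e3
  fin_cases i0 <;> simp_all

lemma f_one : f 1 = 26071/2500 := by
  simp only [f, p1, p2, p3, p4, p9]; norm_num

lemma pair_opt (s t : ℝ) (hs : 70711/100000 ≤ s) (ht : 70711/100000 ≤ t)
    (h : s ^ 2 + t ^ 2 - s * t ≤ 3 / 4) :
    f 1 + (f (-s) + f (-t)) ≤ 2599/200 := by
  have hs1 : s ≤ 966/1000 := by
    by_contra hc
    push Not at hc
    nlinarith [mul_nonneg (sub_nonneg.mpr hs) (sub_nonneg.mpr ht), sq_nonneg (t - 70711/100000),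
      sq_nonneg (s - t), mul_nonneg (sub_nonneg.mpr hc.le) (sub_nonneg.mpr ht),
      sq_nonneg (s - 966/1000 - (t - 70711/100000))]
  have ht1 : t ≤ 966/1000 := by
    by_contra hc
    push Not at hc
    nlinarith [mul_nonneg (sub_nonneg.mpr hs) (sub_nonneg.mpr ht), sq_nonneg (s - 70711/100000),
      sq_nonneg (s - t), mul_nonneg (sub_nonneg.mpr hc.le) (sub_nonneg.mpr hs),
      sq_nonneg (t - 966/1000 - (s - 70711/100000))]
  have e1 := q2_ge s hs hs1
  have e2 := q2_ge t ht ht1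
  rw [f_one]
  obtain ⟨g, hg⟩ : ∃ g, g = s + t := ⟨_, rfl⟩
  obtain ⟨d, hd⟩ : ∃ d, d = s - t := ⟨_, rfl⟩
  have hsg : s = (g + d) / 2 := by rw [hg, hd]; ring
  have htg : t = (g - d) / 2 := by rw [hg, hd]; ring
  have hc1 : g ^ 2 + 3 * d ^ 2 ≤ 3 := by
    rw [hsg, htg] at h; nlinarith
  have hg0 : 141422/100000 ≤ g := by rw [hg]; linarith
  have hg1 : g ≤ 17321/10000 := by nlinarith [sq_nonneg d]
  have hc2 : d ^ 2 ≤ (g - 141422/100000) ^ 2 := by
    have := mul_nonneg (sub_nonneg.mpr hs) (sub_nonneg.mpr ht)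
    rw [hsg, htg] at this; nlinarith
  have hsum : 18448/1000*s^2 - 20951/1000*s + 55905/10000
      + (18448/1000*t^2 - 20951/1000*t + 55905/10000)
      = 18448/1000 * (g ^ 2 + d ^ 2) / 2 - 20951/1000 * g + 2 * (55905/10000) := by
    rw [hsg, htg]; ring
  have hmain : 18448/1000 * (g ^ 2 + d ^ 2) / 2 - 20951/1000 * g + 2 * (55905/10000)
      ≤ 2599/200 - 26071/2500 := by
    rcases le_total g (167304/100000) with hgc | hgc
    · nlinarith [mul_nonneg (sub_nonneg.mpr hgc) (sub_nonneg.mpr hg0)]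
    · nlinarith [mul_nonneg (sub_nonneg.mpr hgc) (sub_nonneg.mpr hg1)]
  linarith

lemma triple_opt (r s t : ℝ) (hr : 70711/100000 ≤ r) (hs : 70711/100000 ≤ s)
    (ht : 70711/100000 ≤ t)
    (h : r ^ 2 + s ^ 2 + t ^ 2 - (r + s + t) ^ 2 / 4 ≤ 1 / 2) (h6 : (r + s + t) ^ 2 ≤ 6) :
    f 1 + (f (-r) + f (-s) + f (-t)) ≤ 2599/200 := by
  have hub : ∀ r s t : ℝ, 70711/100000 ≤ r → 70711/100000 ≤ s → 70711/100000 ≤ t →
      r ^ 2 + s ^ 2 + t ^ 2 - (r + s + t) ^ 2 / 4 ≤ 1 / 2 → r ≤ 943/1000 := by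
    intro r s t hr hs ht h
    by_contra hc
    push Not at hc
    obtain ⟨a, ha⟩ : ∃ a, a = s - 70711/100000 := ⟨_, rfl⟩
    obtain ⟨b, hb⟩ : ∃ b, b = t - 70711/100000 := ⟨_, rfl⟩
    obtain ⟨c, hcc⟩ : ∃ c, c = r - 943/1000 := ⟨_, rfl⟩
    have ha0 : 0 ≤ a := by rw [ha]; linarith
    have hb0 : 0 ≤ b := by rw [hb]; linarith
    have hc0 : 0 ≤ c := by rw [hcc]; linarith
    have es : s = a + 70711/100000 := by rw [ha]; ring
    have et : t = b + 70711/100000 := by rw [hb]; ring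
    have er : r = c + 943/1000 := by rw [hcc]; ring
    rw [es, et, er] at h
    nlinarith [sq_nonneg (a - b), sq_nonneg (a - c), sq_nonneg (b - c), sq_nonneg a, sq_nonneg b,
      sq_nonneg c]
  have e1 := q3_ge r hr (hub r s t hr hs ht h)
  have e2 := q3_ge s hs (hub s r t hs hr ht (by linarith))
  have e3 := q3_ge t ht (hub t r s ht hr hs (by linarith))
  rw [f_one]
  obtain ⟨g, hg⟩ : ∃ g, g = r + s + t := ⟨_, rfl⟩
  obtain ⟨Q, hQ⟩ : ∃ Q, Q = r ^ 2 + s ^ 2 + t ^ 2 := ⟨_, rfl⟩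
  rw [← hg, ← hQ] at h
  rw [← hg] at h6
  have hg0 : 212133/100000 ≤ g := by rw [hg]; linarith
  have hg1 : g ≤ 24495/10000 := by nlinarith
  have hsum : 12423/1000*r^2 - 11111/1000*r + 16453/10000
      + (12423/1000*s^2 - 11111/1000*s + 16453/10000)
      + (12423/1000*t^2 - 11111/1000*t + 16453/10000)
      = 12423/1000 * Q - 11111/1000 * g + 3 * (16453/10000) := by
    rw [hQ, hg]; ring
  have hmain : 12423/1000 * Q - 11111/1000 * g + 3 * (16453/10000) ≤ 2599/200 - 26071/2500 := by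
    nlinarith [mul_nonneg (sub_nonneg.mpr hg0) (sub_nonneg.mpr hg1)]
  linarith

lemma row (T : Finset E3) (h1 : ∀ u ∈ T, ‖u‖ = 1)
    (h2 : ∀ u ∈ T, ∀ v ∈ T, u ≠ v → (inner ℝ u v : ℝ) ≤ 1 / 2) (x : E3) (hx : x ∈ T) :
    ∑ y ∈ T, f (inner ℝ x y) ≤ 2599/200 := by
  classical
  obtain ⟨B, hB⟩ : ∃ B, B = T.filter (fun y => (inner ℝ x y : ℝ) < -(70711/100000)) := ⟨_, rfl⟩
  have hxx : (inner ℝ x x : ℝ) = 1 := by rw [real_inner_self_eq_norm_sq, h1 x hx]; norm_num
  have hBT : ∀ y ∈ B, y ∈ T ∧ (inner ℝ x y : ℝ) < -(70711/100000) := by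
    intro y hy
    rw [hB, Finset.mem_filter] at hy
    exact hy
  have hxB : x ∉ B := by
    intro h
    have := (hBT x h).2
    rw [hxx] at this
    linarith
  have hsplit : ∑ y ∈ T, f (inner ℝ x y) = f 1 + ∑ y ∈ T.erase x, f (inner ℝ x y) := by
    rw [← Finset.add_sum_erase T _ hx, hxx]
  have hle : ∑ y ∈ T.erase x, f (inner ℝ x y) ≤ ∑ y ∈ B, f (inner ℝ x y) := by
    have hsub : B ⊆ T.erase x := by
      intro y hy
      rw [Finset.mem_erase]
      exact ⟨fun h => hxB (h ▸ hy), (hBT y hy).1⟩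
    rw [← Finset.sum_sdiff hsub]
    have : ∑ y ∈ T.erase x \ B, f (inner ℝ x y) ≤ 0 := by
      refine Finset.sum_nonpos (fun y hy => ?_)
      rw [Finset.mem_sdiff, Finset.mem_erase, hB, Finset.mem_filter] at hy
      obtain ⟨⟨hyx, hyT⟩, hyB⟩ := hy
      apply f_nonpos
      · by_contra hcon
        push Not at hcon
        exact hyB ⟨hyT, hcon⟩
      · exact h2 x hx y hyT (Ne.symm hyx)
    linarith
  have hcard : B.card ≤ 3 := by
    by_contra hcon
    push Not at hcon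
    obtain ⟨C, hCB, hC⟩ := Finset.exists_subset_card_eq (show 4 ≤ B.card by omega)
    let e := C.equivFinOfCardEq hC
    have hmem : ∀ i, ((e.symm i : C) : E3) ∈ B := fun i => hCB (e.symm i).2
    refine no_four x (h1 x hx)
      (fun i => ((e.symm i : C) : E3) - (inner ℝ x ((e.symm i : C) : E3) : ℝ) • x) ?_ ?_
    · intro i
      simp only [inner_sub_right, inner_smul_right, hxx]
      ring
    · intro i j hij
      have hne : ((e.symm i : C) : E3) ≠ ((e.symm j : C) : E3) := by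
        intro h
        exact hij (e.symm.injective (Subtype.ext h))
      have a1 := hBT _ (hmem i)
      have a2 := hBT _ (hmem j)
      have a3 := h2 _ a1.1 _ a2.1 hne
      simp only [inner_sub_left, inner_sub_right, inner_smul_left, inner_smul_right,
        RCLike.conj_to_real, hxx]
      rw [real_inner_comm x ((e.symm i : C) : E3)]
      nlinarith [a1.2, a2.2]
  rw [hsplit]
  refine le_trans (add_le_add_right hle (f 1)) ?_
  have hcases : B.card = 0 ∨ B.card = 1 ∨ B.card = 2 ∨ B.card = 3 := by omega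
  have hnorm : ∀ y ∈ B, ∃ s : ℝ, (inner ℝ x y : ℝ) = -s ∧ 70711/100000 ≤ s ∧ s ≤ 1 := by
    intro y hy
    obtain ⟨hyT, hy2⟩ := hBT y hy
    refine ⟨-(inner ℝ x y : ℝ), by ring, by linarith, ?_⟩
    have := inner_sq_le x y (h1 x hx)
    rw [real_inner_self_eq_norm_sq, h1 y hyT] at this
    nlinarith
  rcases hcases with hc | hc | hc | hc
  · rw [Finset.card_eq_zero] at hc
    rw [hc, Finset.sum_empty, f_one]
    norm_num
  · rw [Finset.card_eq_one] at hc
    obtain ⟨y, hy⟩ := hc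
    obtain ⟨s, hs, hs0, hs1⟩ := hnorm y (by rw [hy]; simp)
    rw [hy, Finset.sum_singleton, hs]
    exact one_ge s hs0 hs1
  · rw [Finset.card_eq_two] at hc
    obtain ⟨y, z, hyz, hB2⟩ := hc
    have hyB : y ∈ B := by rw [hB2]; simp
    have hzB : z ∈ B := by rw [hB2]; simp
    obtain ⟨s, hs, hs0, hs1⟩ := hnorm y hyB
    obtain ⟨t, ht, ht0, ht1⟩ := hnorm z hzB
    rw [hB2, Finset.sum_pair hyz, hs, ht]
    refine pair_opt s t hs0 ht0 ?_
    exact pair_bound x y z (h1 x hx) (h1 y (hBT y hyB).1) (h1 z (hBT z hzB).1)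
      (h2 y (hBT y hyB).1 z (hBT z hzB).1 hyz) s t hs ht (by linarith) (by linarith)
  · rw [Finset.card_eq_three] at hc
    obtain ⟨y, z, u, hyz, hyu, hzu, hB2⟩ := hc
    have hyB : y ∈ B := by rw [hB2]; simp
    have hzB : z ∈ B := by rw [hB2]; simp
    have huB : u ∈ B := by rw [hB2]; simp
    obtain ⟨r, hr, hr0, hr1⟩ := hnorm y hyB
    obtain ⟨s, hs, hs0, hs1⟩ := hnorm z hzB
    obtain ⟨t, ht, ht0, ht1⟩ := hnorm u huB
    have hsum : ∑ y ∈ B, f (inner ℝ x y) = f (-r) + f (-s) + f (-t) := by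
      rw [hB2, Finset.sum_insert (by simp [hyz, hyu]), Finset.sum_pair hzu, hr, hs, ht]
      ring
    rw [hsum]
    have hb := triple_bound x y z u (h1 x hx) (h1 y (hBT y hyB).1) (h1 z (hBT z hzB).1)
      (h1 u (hBT u huB).1) (h2 y (hBT y hyB).1 z (hBT z hzB).1 hyz)
      (h2 y (hBT y hyB).1 u (hBT u huB).1 hyu) (h2 z (hBT z hzB).1 u (hBT u huB).1 hzu)
      r s t hr hs ht hr0 hs0 ht0
    exact triple_opt r s t hr0 hs0 ht0 hb.1 hb.2

/-- **Kissing number of `ℝ³`.** A finite set of unit vectors with pairwise inner products at most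
`1/2` has at most `12` elements. -/
theorem kissing_le_twelve (T : Finset E3) (h1 : ∀ u ∈ T, ‖u‖ = 1)
    (h2 : ∀ u ∈ T, ∀ v ∈ T, u ≠ v → (inner ℝ u v : ℝ) ≤ 1 / 2) : T.card ≤ 12 := by
  have hl := lower T h1
  have hu : ∑ x ∈ T, ∑ y ∈ T, f (inner ℝ x y) ≤ T.card * (2599/200) := by
    have := Finset.sum_le_sum (fun x hx => row T h1 h2 x hx)
    simpa using this
  by_contra hcon
  push Not at hcon
  have h13 : (13 : ℝ) ≤ T.card := by exact_mod_cast hcon
  nlinarith

end Helper484.Kissing
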