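import Mathlib

set_option autoImplicit false

namespace Pool.Agent.Helper484

open Finset

section
variable {k : ℕ} (s : Fin k → ℕ)

abbrev Idx := Σ b : Fin k, Fin (s b + 1)

def sumMap : EuclideanSpace ℝ (Idx s) →ₗ[ℝ] (Fin k → ℝ) where
  toFun v b := ∑ j : Fin (s b + 1), v ⟨b, j⟩
  map_add' u v := by
    funext b
    simp [Finset.sum_add_distrib]
  map_smul' c v := by
    funext b
    simp [Finset.mul_sum]

lemma sumMap_surj : Function.Surjective (sumMap s) := by
  intro g
  refine ⟨WithLp.toLp 2 (fun i => if i.2 = 0 then g i.1 else 0), ?_⟩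
  funext b
  simp only [sumMap, LinearMap.coe_mk, AddHom.coe_mk]
  rw [Finset.sum_eq_single (0 : Fin (s b + 1))]
  · simp
  · intro x _ hx
    simp [hx]
  · simp

lemma finrank_ker {n : ℕ} (hsum : ∑ b, s b = n) :
    Module.finrank ℝ (LinearMap.ker (sumMap s)) = n := by
  have h := LinearMap.finrank_range_add_finrank_ker (sumMap s)
  rw [LinearMap.range_eq_top.mpr (sumMap_surj s)] at h
  rw [finrank_top] at h
  simp only [Module.finrank_fintype_fun_eq_card, Fintype.card_fin, finrank_euclideanSpace,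
    Fintype.card_sigma] at h
  rw [Finset.sum_add_distrib, hsum] at h
  simp at h
  omega

/-- coordinates of the vertex `i`. -/
noncomputable def wc (i : Idx s) : EuclideanSpace ℝ (Idx s) :=
  WithLp.toLp 2 fun j => Real.sqrt (((s i.1 : ℝ) + 1) / s i.1) *
    ((if j = i then 1 else 0) - if j.1 = i.1 then 1 / ((s i.1 : ℝ) + 1) else 0)

lemma wc_mem (i : Idx s) : wc s i ∈ LinearMap.ker (sumMap s) := by
  rw [LinearMap.mem_ker]
  funext b
  simp only [sumMap, wc, LinearMap.coe_mk, AddHom.coe_mk, Pi.zero_apply]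
  rw [← Finset.mul_sum, Finset.sum_sub_distrib]
  obtain ⟨a, i⟩ := i
  by_cases h : b = a
  · subst h
    have : ∑ x : Fin (s b + 1), (if (⟨b, x⟩ : Idx s) = ⟨b, i⟩ then (1:ℝ) else 0) = 1 := by
      simp [Finset.sum_ite_eq']
    rw [this]
    simp
    right
    field_simp
    ring
  · have h2 : ∀ x : Fin (s b + 1), ¬ ((⟨b, x⟩ : Idx s) = ⟨a, i⟩) := by
      intro x hx
      exact h (congrArg Sigma.fst hx)
    simp [h2, h]

lemma inner_wc (i : Idx s) (v : EuclideanSpace ℝ (Idx s)) (hv : v ∈ LinearMap.ker (sumMap s)) :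
    @inner ℝ _ _ (wc s i) v = Real.sqrt (((s i.1 : ℝ) + 1) / s i.1) * v i := by
  rw [LinearMap.mem_ker] at hv
  have hb : ∑ j : Fin (s i.1 + 1), v ⟨i.1, j⟩ = 0 := congrFun hv i.1
  rw [EuclideanSpace.inner_eq_star_dotProduct]
  simp only [dotProduct, wc, star_trivial, Pi.star_apply]
  have : ∀ j : Idx s, v.ofLp j * (Real.sqrt (((s i.1 : ℝ) + 1) / s i.1) *
    ((if j = i then 1 else 0) - if j.1 = i.1 then 1 / ((s i.1 : ℝ) + 1) else 0)) =
    Real.sqrt (((s i.1 : ℝ) + 1) / s i.1) * ((if j = i then v j else 0) -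
      1 / ((s i.1 : ℝ) + 1) * (if j.1 = i.1 then v j else 0)) := by
    intro j
    split_ifs <;> ring
  simp only [this]
  rw [← Finset.mul_sum, Finset.sum_sub_distrib, ← Finset.mul_sum]
  have h2 : ∑ j : Idx s, (if j.1 = i.1 then v j else 0) = 0 := by
    rw [Fintype.sum_sigma]
    rw [Finset.sum_eq_single i.1]
    · simpa using hb
    · intro b _ hb'
      simp [hb']
    · simp
  rw [h2]
  simp

end

theorem block_config {n k : ℕ} (s : Fin k → ℕ) (hs : ∀ b, 1 ≤ s b)
    (hsum : ∑ b, s b = n) :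
    ∃ x : (Σ b : Fin k, Fin (s b + 1)) → EuclideanSpace ℝ (Fin n),
      (∀ i, ‖x i‖ = 1) ∧
      (∀ i j, i ≠ j → i.1 = j.1 → @inner ℝ _ _ (x i) (x j) = -1 / (s i.1 : ℝ)) ∧
      (∀ i j, i.1 ≠ j.1 → @inner ℝ _ _ (x i) (x j) = 0) ∧
      (∀ y : EuclideanSpace ℝ (Fin n), ‖y‖ = 1 →
        ∃ i, 1 / Real.sqrt (∑ b, (s b : ℝ) ^ 2) ≤ @inner ℝ _ _ (x i) y) := by
  classical
  let V := LinearMap.ker (sumMap s)
  have hV : Module.finrank ℝ V = n := finrank_ker s hsum
  let e : V ≃ₗᵢ[ℝ] EuclideanSpace ℝ (Fin n) :=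
    ((stdOrthonormalBasis ℝ V).reindex (finCongr hV)).repr
  let w : (Σ b : Fin k, Fin (s b + 1)) → V := fun i => ⟨wc s i, wc_mem s i⟩
  have hpos : ∀ b, (0:ℝ) < s b := fun b => by exact_mod_cast hs b
  have hww : ∀ i j, @inner ℝ _ _ (w i) (w j) = Real.sqrt (((s i.1 : ℝ) + 1) / s i.1) *
      (wc s j) i := by
    intro i j
    exact inner_wc s i _ (wc_mem s j)
  have hsq : ∀ b, Real.sqrt (((s b : ℝ) + 1) / s b) * Real.sqrt (((s b : ℝ) + 1) / s b) =
      ((s b : ℝ) + 1) / s b := by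
    intro b
    apply Real.mul_self_sqrt
    have := hpos b
    positivity
  refine ⟨fun i => e (w i), ?_, ?_, ?_, ?_⟩
  · intro i
    rw [e.norm_map]
    have h1 : ‖w i‖ ^ 2 = 1 := by
      rw [← real_inner_self_eq_norm_sq, hww]
      simp only [wc, if_true]
      rw [← mul_assoc, hsq]
      have := hpos i.1
      field_simp
      ring
    have h2 : 0 ≤ ‖w i‖ := norm_nonneg _
    nlinarith
  · intro i j hij h1
    rw [e.inner_map_map, hww]
    simp only [wc, if_neg hij, if_pos h1]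
    rw [← h1, ← mul_assoc, hsq]
    have := hpos i.1
    field_simp
    ring
  · intro i j h1
    rw [e.inner_map_map, hww]
    have h2 : i ≠ j := fun h => h1 (congrArg _ h)
    simp only [wc, if_neg h2, if_neg h1]
    simp
  · intro y hy
    by_contra hcon
    push Not at hcon
    set t : ℝ := 1 / Real.sqrt (∑ b, (s b : ℝ) ^ 2) with ht
    obtain ⟨v, hv⟩ : ∃ v : V, e v = y := ⟨e.symm y, by simp⟩
    have hvn : ‖v‖ = 1 := by rw [← e.norm_map, hv, hy]
    have hlt : ∀ i : (Σ b : Fin k, Fin (s b + 1)), Real.sqrt (((s i.1 : ℝ) + 1) / s i.1) * v.1 i < t := by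
      intro i
      have h1 := hcon i
      rw [← hv, e.inner_map_map] at h1
      have h2 : @inner ℝ _ _ (w i) v = Real.sqrt (((s i.1 : ℝ) + 1) / s i.1) * v.1 i :=
        inner_wc s i _ v.2
      rwa [h2] at h1
    -- block sums
    have hb : ∀ b, ∑ j : Fin (s b + 1), v.1 ⟨b, j⟩ = 0 := by
      intro b
      have h1 := v.2
      rw [LinearMap.mem_ker] at h1
      exact congrFun h1 b
    have hblock : ∀ b, ∑ j : Fin (s b + 1), (v.1 ⟨b, j⟩) ^ 2 < (s b : ℝ) ^ 2 * t ^ 2 := by
      intro b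
      set c := Real.sqrt (((s b : ℝ) + 1) / s b) with hc
      have hcpos : 0 < c := by
        apply Real.sqrt_pos.mpr
        have := hpos b
        positivity
      have hz : ∀ j : Fin (s b + 1), c * v.1 ⟨b, j⟩ < t := fun j => hlt ⟨b, j⟩
      have hsum0 : ∑ j : Fin (s b + 1), c * v.1 ⟨b, j⟩ = 0 := by
        rw [← Finset.mul_sum, hb, mul_zero]
      have hge : ∀ j : Fin (s b + 1), -(s b : ℝ) * t < c * v.1 ⟨b, j⟩ := by
        intro j
        have h1 : c * v.1 ⟨b, j⟩ + ∑ i ∈ univ.erase j, c * v.1 ⟨b, i⟩ = 0 := by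
          rw [← hsum0]
          exact Finset.add_sum_erase univ (fun i => c * v.1 ⟨b, i⟩) (mem_univ j)
        have hcard : (univ.erase j).card = s b := by
          rw [Finset.card_erase_of_mem (mem_univ j)]; simp
        have hne : (univ.erase j).Nonempty := by
          rw [← Finset.card_pos, hcard]; exact hs b
        have h2 : ∑ i ∈ univ.erase j, c * v.1 ⟨b, i⟩ < ∑ i ∈ univ.erase j, t :=
          Finset.sum_lt_sum_of_nonempty hne (fun i _ => hz i)
        rw [Finset.sum_const, hcard, nsmul_eq_mul] at h2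
        linarith
      have h3 : 0 < ∑ j : Fin (s b + 1), (t - c * v.1 ⟨b, j⟩) * (c * v.1 ⟨b, j⟩ + s b * t) := by
        apply Finset.sum_pos
        · intro j _
          apply mul_pos
          · linarith [hz j]
          · linarith [hge j]
        · exact ⟨0, mem_univ _⟩
      have h4 : ∑ j : Fin (s b + 1), (t - c * v.1 ⟨b, j⟩) * (c * v.1 ⟨b, j⟩ + s b * t) =
          ((s b : ℝ) + 1) * (s b * t ^ 2) - c * c * ∑ j : Fin (s b + 1), (v.1 ⟨b, j⟩) ^ 2 +
          (t - s b * t) * ∑ j : Fin (s b + 1), c * v.1 ⟨b, j⟩ := by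
        have : ∀ j : Fin (s b + 1), (t - c * v.1 ⟨b, j⟩) * (c * v.1 ⟨b, j⟩ + s b * t) =
            (s b * t ^ 2) - c * c * (v.1 ⟨b, j⟩) ^ 2 + (t - s b * t) * (c * v.1 ⟨b, j⟩) := by
          intro j; ring
        rw [Finset.sum_congr rfl (fun j _ => this j), Finset.sum_add_distrib,
          Finset.sum_sub_distrib,
          ← Finset.mul_sum (s := univ) (f := fun j => c * v.1 ⟨b, j⟩),
          ← Finset.mul_sum (s := univ) (f := fun j => v.1 ⟨b, j⟩ ^ 2), Finset.sum_const,
          Finset.card_univ, Fintype.card_fin, nsmul_eq_mul]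
        push_cast
        ring
      rw [h4, hsum0, mul_zero, add_zero, hsq] at h3
      have h5 := hpos b
      have h6 : 0 < ((s b : ℝ) + 1) / s b * (s b ^ 2 * t ^ 2 -
          ∑ j : Fin (s b + 1), (v.1 ⟨b, j⟩) ^ 2) := by
        have : ((s b : ℝ) + 1) / s b * (s b ^ 2 * t ^ 2 -
          ∑ j : Fin (s b + 1), (v.1 ⟨b, j⟩) ^ 2) = ((s b : ℝ) + 1) * (s b * t ^ 2) -
          ((s b : ℝ) + 1) / s b * ∑ j : Fin (s b + 1), (v.1 ⟨b, j⟩) ^ 2 := by
          field_simp
        rw [this]; exact h3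
      have h7 : 0 < ((s b : ℝ) + 1) / s b := by positivity
      have h8 := (mul_pos_iff_of_pos_left h7).mp h6
      linarith
    have hnorm : ∑ i : (Σ b : Fin k, Fin (s b + 1)), (v.1 i) ^ 2 = 1 := by
      have h1 : ‖v.1‖ ^ 2 = 1 := by
        have : ‖v.1‖ = ‖v‖ := rfl
        rw [this, hvn, one_pow]
      rw [EuclideanSpace.norm_sq_eq] at h1
      simpa using h1
    rw [Fintype.sum_sigma] at hnorm
    have hkne : (univ : Finset (Fin k)).Nonempty := by
      by_contra h
      rw [Finset.not_nonempty_iff_eq_empty] at h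
      rw [h] at hnorm
      simp at hnorm
    have hfin : (1:ℝ) < (∑ b, (s b : ℝ) ^ 2) * t ^ 2 := by
      rw [← hnorm, Finset.sum_mul]
      exact Finset.sum_lt_sum_of_nonempty hkne (fun b _ => hblock b)
    have hS : 0 < ∑ b, (s b : ℝ) ^ 2 :=
      Finset.sum_pos (fun b _ => by have := hpos b; positivity) hkne
    rw [ht, div_pow, Real.sq_sqrt hS.le, one_pow] at hfin
    rw [mul_one_div_cancel hS.ne'] at hfin
    exact lt_irrefl _ hfin

end Pool.Agent.Helper484
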