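import Pool.Agent.Helper484.Equal
import Pool.Agent.Helper484.Block

set_option autoImplicit false

namespace Pool.Agent.Helper484

open Finset

theorem structure_of_cover {n k q : ℕ} (hq : 0 < q) (hk : 0 < k) (hn : n = k * q)
    {ι : Type*} [Fintype ι] [DecidableEq ι]
    (hcard : Fintype.card ι = n + k)
    (c : ι → EuclideanSpace ℝ (Fin n)) (hc : ∀ i, ‖c i‖ = 1)
    (hcov : ∀ y : EuclideanSpace ℝ (Fin n), ‖y‖ = 1 →
      ∃ i, Real.sqrt k / n ≤ @inner ℝ _ _ (c i) y) :
    ∃ f : ι → Fin k, (∀ b, (univ.filter (fun j => f j = b)).card = q + 1) ∧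
      (∀ i j, i ≠ j → f i = f j → @inner ℝ _ _ (c i) (c j) = -1 / (q : ℝ)) ∧
      (∀ i j, f i ≠ f j → @inner ℝ _ _ (c i) (c j) = 0) := by
  have hq' : (0:ℝ) < q := by exact_mod_cast hq
  have hk' : (0:ℝ) < k := by exact_mod_cast hk
  have hnpos : 0 < n := by rw [hn]; exact Nat.mul_pos hk hq
  have hnq : (n:ℝ) = k * q := by rw [hn]; push_cast; ring
  have hnpos' : (0:ℝ) < n := by exact_mod_cast hnpos
  have hlt : n < Fintype.card ι := by omega
  have hNr : (Fintype.card ι : ℝ) - n = k := by rw [hcard]; push_cast; ring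
  have ht : 0 < Real.sqrt k / n := by positivity
  obtain ⟨-, h2⟩ := cover_main c hc hnpos hlt _ ht hcov
  obtain ⟨J, g, h3, h4, h5, h6, h7⟩ := h2 (by
    rw [hNr, div_pow, Real.sq_sqrt hk'.le]
    field_simp
    exact le_refl _)
  have hJ : J.card = k := by omega
  let e : J ≃ Fin k := Finset.equivFinOfCardEq hJ
  refine ⟨fun i => e ⟨g i, h4 i⟩, ?_, ?_, ?_⟩
  · intro b
    have h8 : univ.filter (fun j => e ⟨g j, h4 j⟩ = b) =
        univ.filter (fun j => g j = (e.symm b : ι)) := by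
      ext j
      simp only [Finset.mem_filter, Finset.mem_univ, true_and]
      rw [← Equiv.eq_symm_apply]
      constructor
      · intro h; exact congrArg Subtype.val h
      · intro h; exact Subtype.ext h
    rw [h8]
    have h9 := h7 (e.symm b) (e.symm b).2
    rw [hNr, hnq] at h9
    have h10 : ((univ.filter (fun j => g j = (e.symm b : ι))).card : ℝ) = q + 1 := by
      field_simp at h9
      linarith
    exact_mod_cast h10
  · intro i j hij hfe
    have h8 : g i = g j := by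
      have := e.injective hfe
      exact congrArg Subtype.val this
    rw [h5 i j hij h8, hNr, hnq]
    field_simp
  · intro i j hfe
    apply h6
    intro h
    exact hfe (congrArg e (Subtype.ext h))

theorem level_le {n k : ℕ} (hn : 0 < n) (hk : 0 < k)
    {ι : Type*} [Fintype ι] [DecidableEq ι]
    (hcard : Fintype.card ι = n + k)
    (c : ι → EuclideanSpace ℝ (Fin n)) (hc : ∀ i, ‖c i‖ = 1) (t : ℝ)
    (hcov : ∀ y : EuclideanSpace ℝ (Fin n), ‖y‖ = 1 → ∃ i, t ≤ @inner ℝ _ _ (c i) y) :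
    t ≤ Real.sqrt k / n := by
  have hk' : (0:ℝ) < k := by exact_mod_cast hk
  have hn' : (0:ℝ) < n := by exact_mod_cast hn
  rcases le_or_gt t 0 with h | h
  · exact h.trans (by positivity)
  obtain ⟨h1, -⟩ := cover_main c hc hn (by omega) t h hcov
  rw [hcard] at h1
  push_cast at h1
  have h2 : (t * n) ^ 2 ≤ k := by
    rw [mul_pow]; linarith
  rw [le_div_iff₀ hn']
  exact Real.le_sqrt_of_sq_le h2

/-- angle condition in terms of inner products. -/
lemma angle_le_arccos {n : ℕ} {x c : EuclideanSpace ℝ (Fin n)} (hx : ‖x‖ = 1) (hc : ‖c‖ = 1)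
    {t : ℝ} (ht0 : -1 ≤ t) (ht1 : t ≤ 1) :
    InnerProductGeometry.angle x c ≤ Real.arccos t ↔ t ≤ @inner ℝ _ _ c x := by
  have h1 : |@inner ℝ _ _ x c| ≤ 1 := by
    have := abs_real_inner_le_norm x c
    rwa [hx, hc, one_mul] at this
  rw [InnerProductGeometry.angle, hx, hc, mul_one, div_one, real_inner_comm]
  rw [real_inner_comm] at h1
  exact Real.strictAntiOn_arccos.le_iff_ge ⟨(abs_le.mp h1).1, (abs_le.mp h1).2⟩ ⟨ht0, ht1⟩

lemma cos_le_inner_of_angle_le {n : ℕ} {x c : EuclideanSpace ℝ (Fin n)} (hx : ‖x‖ = 1)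
    (hc : ‖c‖ = 1) {r : ℝ} (hr : r ≤ Real.pi) (h : InnerProductGeometry.angle x c ≤ r) :
    Real.cos r ≤ @inner ℝ _ _ c x := by
  have h1 : Real.cos r ≤ Real.cos (InnerProductGeometry.angle x c) :=
    Real.cos_le_cos_of_nonneg_of_le_pi (InnerProductGeometry.angle_nonneg x c) hr h
  rw [InnerProductGeometry.cos_angle, hx, hc, mul_one, div_one, real_inner_comm] at h1
  exact h1

lemma sqrt_div_le_one {n k : ℕ} (hk : 0 < k) (hkn : k ≤ n) : Real.sqrt k / n ≤ 1 := by
  have hk' : (1:ℝ) ≤ k := by exact_mod_cast hk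
  have hn' : (k:ℝ) ≤ n := by exact_mod_cast hkn
  rw [div_le_one (by linarith)]
  have h1 : Real.sqrt k ≤ k := by
    rw [Real.sqrt_le_left (by linarith)]
    nlinarith
  linarith

end Pool.Agent.Helper484
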