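import Pool.Agent.Helper484.Struct

set_option autoImplicit false
set_option linter.unusedSectionVars false
set_option linter.unusedSimpArgs false

namespace Pool.Agent.Helper484

open Finset Matrix

variable {n : ℕ} {ι : Type*} [Fintype ι] [DecidableEq ι]

lemma inner_eq_dot (u v : EuclideanSpace ℝ (Fin n)) :
    @inner ℝ _ _ u v = u.ofLp ⬝ᵥ v.ofLp := by
  rw [EuclideanSpace.inner_eq_star_dotProduct]
  simp [dotProduct_comm]

lemma norm_le_of_cover {f : ι → EuclideanSpace ℝ (Fin n)} {t : ℝ} (ht : 0 < t)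
    (hcov : ∀ y : EuclideanSpace ℝ (Fin n), ‖y‖ = 1 → ∃ i, t ≤ @inner ℝ _ _ (f i) y)
    {y : EuclideanSpace ℝ (Fin n)} (hy : ∀ i, @inner ℝ _ _ (f i) y ≤ 1) : t * ‖y‖ ≤ 1 := by
  by_cases h0 : y = 0
  · rw [h0, norm_zero, mul_zero]; norm_num
  have hpos : 0 < ‖y‖ := norm_pos_iff.mpr h0
  obtain ⟨i, hi⟩ := hcov (‖y‖⁻¹ • y) (by rw [norm_smul, norm_inv, norm_norm,
    inv_mul_cancel₀ hpos.ne'])
  rw [inner_smul_right] at hi
  have h1 : ‖y‖⁻¹ * @inner ℝ _ _ (f i) y ≤ ‖y‖⁻¹ * 1 :=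
    mul_le_mul_of_nonneg_left (hy i) (inv_nonneg.mpr hpos.le)
  have h2 : t ≤ ‖y‖⁻¹ := by linarith
  calc t * ‖y‖ ≤ ‖y‖⁻¹ * ‖y‖ := mul_le_mul_of_nonneg_right h2 hpos.le
    _ = 1 := inv_mul_cancel₀ hpos.ne'

/-- Main theorem on coverings by `n + k` equal caps: upper bound on the level, and
the structure of all extremal configurations. -/
theorem cover_main (f : ι → EuclideanSpace ℝ (Fin n)) (hf : ∀ i, ‖f i‖ = 1) (hn : 0 < n)
    (hk : n < Fintype.card ι) (t : ℝ) (ht : 0 < t)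
    (hcov : ∀ y : EuclideanSpace ℝ (Fin n), ‖y‖ = 1 → ∃ i, t ≤ @inner ℝ _ _ (f i) y) :
    t ^ 2 * (n : ℝ) ^ 2 ≤ Fintype.card ι - n ∧
    ((Fintype.card ι : ℝ) - n ≤ t ^ 2 * (n : ℝ) ^ 2 →
      ∃ (J : Finset ι) (g : ι → ι), J.card + n = Fintype.card ι ∧ (∀ i, g i ∈ J) ∧
      (∀ i j, i ≠ j → g i = g j →
        @inner ℝ _ _ (f i) (f j) = - (((Fintype.card ι : ℝ) - n) / n)) ∧
      (∀ i j, g i ≠ g j → @inner ℝ _ _ (f i) (f j) = 0) ∧
      (∀ j ∈ J, ((Fintype.card ι : ℝ) - n) / n *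
        (((univ.filter fun i => g i = j).card : ℝ) - 1) = 1)) := by
  set x : ι → Fin n → ℝ := fun i => (f i).ofLp with hx
  have hx1 : ∀ j, x j ⬝ᵥ x j = 1 := by
    intro j
    rw [← inner_eq_dot, real_inner_self_eq_norm_sq, hf, one_pow]
  have hnorm : ∀ y : Fin n → ℝ, (∀ j, x j ⬝ᵥ y ≤ 1) → t ^ 2 * (y ⬝ᵥ y) ≤ 1 := by
    intro y hy
    have h1 := norm_le_of_cover ht hcov (y := WithLp.toLp 2 y) (fun i => by
      rw [inner_eq_dot]; exact hy i)
    have h2 : y ⬝ᵥ y = ‖(WithLp.toLp 2 y : EuclideanSpace ℝ (Fin n))‖ ^ 2 := by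
      rw [← real_inner_self_eq_norm_sq, inner_eq_dot]
    rw [h2, ← mul_pow]
    have h3 : 0 ≤ t * ‖(WithLp.toLp 2 y : EuclideanSpace ℝ (Fin n))‖ := by positivity
    exact pow_le_one₀ h3 h1
  have hbdd : ∃ R : ℝ, ∀ y : Fin n → ℝ, (∀ j, x j ⬝ᵥ y ≤ 1) → ∀ m, |y m| ≤ R := by
    refine ⟨1 / t, fun y hy m => ?_⟩
    have h1 := hnorm y hy
    have h2 : y m ^ 2 ≤ y ⬝ᵥ y := by
      rw [dotProduct]
      calc y m ^ 2 = y m * y m := by ring
        _ ≤ ∑ i, y i * y i :=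
          Finset.single_le_sum (f := fun i => y i * y i) (fun i _ => mul_self_nonneg _)
            (mem_univ m)
    rw [le_div_iff₀ ht]
    have h3 : (|y m| * t) ^ 2 ≤ 1 := by
      rw [mul_pow, sq_abs]
      calc y m ^ 2 * t ^ 2 ≤ (y ⬝ᵥ y) * t ^ 2 :=
            mul_le_mul_of_nonneg_right h2 (by positivity)
        _ ≤ 1 := by linarith
    have h4 : 0 ≤ |y m| * t := by positivity
    nlinarith [sq_nonneg (|y m| * t - 1)]
  obtain ⟨p, hp0, hp1, hp2, hp3, hp4, hp5⟩ := exists_weights x hbdd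
  let w : Wt x :=
    { p := p, nonneg := hp0, sum_one := hp1, det := fun I hI => (hp2 I hI).1,
      mean := hp3, iso := hp4 }
  have hκ : (0:ℝ) < Fintype.card ι - n := by
    have : (n:ℝ) < Fintype.card ι := by exact_mod_cast hk
    linarith
  have hyle : ∀ I, w.p I ≠ 0 → t ^ 2 * (Wt.y x I ⬝ᵥ Wt.y x I) ≤ 1 := by
    intro I hI
    exact hnorm _ (hp2 I hI).2
  constructor
  · have h1 := w.bound (fun j => (hx1 j).le) hn hk
    have h2 : ∑ I, w.p I * (Wt.y x I ⬝ᵥ Wt.y x I) ≤ 1 / t ^ 2 := by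
      calc ∑ I, w.p I * (Wt.y x I ⬝ᵥ Wt.y x I) ≤ ∑ I, w.p I * (1 / t ^ 2) := by
            apply Finset.sum_le_sum
            intro I _
            by_cases hI : w.p I = 0
            · rw [hI]; simp
            · apply mul_le_mul_of_nonneg_left _ (w.nonneg I)
              rw [le_div_iff₀ (by positivity), mul_comm]
              exact hyle I hI
        _ = 1 / t ^ 2 := by rw [← Finset.sum_mul, w.sum_one, one_mul]
    have h3 := h1.trans h2
    rw [div_le_div_iff₀ hκ (by positivity)] at h3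
    linarith
  · intro hle
    obtain ⟨J, g, h1, h2, h3, h4, h5⟩ := w.blocks hx1 hn hk hp5 (by
      intro I hI
      have h6 := hyle I hI
      rw [le_div_iff₀ hκ]
      have h7 : 0 ≤ Wt.y x I ⬝ᵥ Wt.y x I := by
        rw [dotProduct]
        exact Finset.sum_nonneg fun i _ => mul_self_nonneg _
      calc (Wt.y x I ⬝ᵥ Wt.y x I) * ((Fintype.card ι : ℝ) - n) ≤
            (Wt.y x I ⬝ᵥ Wt.y x I) * (t ^ 2 * (n : ℝ) ^ 2) :=
            mul_le_mul_of_nonneg_left hle h7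
        _ = (t ^ 2 * (Wt.y x I ⬝ᵥ Wt.y x I)) * (n : ℝ) ^ 2 := by ring
        _ ≤ 1 * (n : ℝ) ^ 2 := mul_le_mul_of_nonneg_right h6 (by positivity)
        _ = (n : ℝ) ^ 2 := one_mul _)
    refine ⟨J, g, h1, h2, ?_, ?_, h5⟩
    · intro i j hij hg
      rw [inner_eq_dot]
      exact h3 i j hij hg
    · intro i j hg
      rw [inner_eq_dot]
      exact h4 i j hg

end Pool.Agent.Helper484
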