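import Pool.Agent.Helper484.Cover

set_option autoImplicit false

namespace Pool.Agent.Helper484

open Finset

lemma parseval_of_trace {n : ℕ} {ι : Type*} [Fintype ι] (c : ι → EuclideanSpace ℝ (Fin n))
    (a : ι → ℝ) (h1 : ∑ i, a i * @inner ℝ _ _ (c i) (c i) = n)
    (h2 : ∑ i, ∑ j, a i * a j * (@inner ℝ _ _ (c i) (c j)) ^ 2 = n)
    (y : EuclideanSpace ℝ (Fin n)) :
    ∑ i, a i * (@inner ℝ _ _ (c i) y) ^ 2 = ‖y‖ ^ 2 := by
  set M : Fin n → Fin n → ℝ := fun p q => ∑ i, a i * (c i p * c i q) with hM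
  have hin : ∀ u v : EuclideanSpace ℝ (Fin n), @inner ℝ _ _ u v = ∑ p, u p * v p := by
    intro u v
    rw [inner_eq_dot]; rfl
  have hMM : ∑ p, ∑ q, M p q ^ 2 = n := by
    rw [← h2]
    have e1 : ∀ p q, M p q ^ 2 = ∑ i, ∑ j, (a i * (c i p * c i q)) * (a j * (c j p * c j q)) := by
      intro p q
      rw [sq, hM, Finset.sum_mul_sum]
    simp only [e1]
    have e2 : ∀ i j, a i * a j * (@inner ℝ _ _ (c i) (c j)) ^ 2 =
        ∑ p, ∑ q, (a i * (c i p * c i q)) * (a j * (c j p * c j q)) := by
      intro i j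
      rw [hin, sq, Finset.sum_mul_sum, Finset.mul_sum]
      refine Finset.sum_congr rfl fun p _ => ?_
      rw [Finset.mul_sum]
      refine Finset.sum_congr rfl fun q _ => ?_
      ring
    simp only [e2]
    calc ∑ p, ∑ q, ∑ i, ∑ j, (a i * (c i p * c i q)) * (a j * (c j p * c j q))
        = ∑ p, ∑ i, ∑ q, ∑ j, (a i * (c i p * c i q)) * (a j * (c j p * c j q)) := by
          refine Finset.sum_congr rfl fun p _ => ?_
          rw [Finset.sum_comm]
      _ = ∑ i, ∑ p, ∑ q, ∑ j, (a i * (c i p * c i q)) * (a j * (c j p * c j q)) := by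
          rw [Finset.sum_comm]
      _ = ∑ i, ∑ p, ∑ j, ∑ q, (a i * (c i p * c i q)) * (a j * (c j p * c j q)) := by
          refine Finset.sum_congr rfl fun i _ => Finset.sum_congr rfl fun p _ => ?_
          rw [Finset.sum_comm]
      _ = ∑ i, ∑ j, ∑ p, ∑ q, (a i * (c i p * c i q)) * (a j * (c j p * c j q)) := by
          refine Finset.sum_congr rfl fun i _ => ?_
          rw [Finset.sum_comm]
  have htr : ∑ p, M p p = n := by
    rw [← h1, hM]
    rw [Finset.sum_comm]
    refine Finset.sum_congr rfl fun i _ => ?_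
    rw [hin, Finset.mul_sum]
  have hz : ∑ p, ∑ q, (M p q - if p = q then 1 else 0) ^ 2 = 0 := by
    have e1 : ∀ p q, (M p q - if p = q then (1:ℝ) else 0) ^ 2 =
        M p q ^ 2 - 2 * (if p = q then M p q else 0) + (if p = q then 1 else 0) := by
      intro p q
      split_ifs <;> ring
    simp only [e1, Finset.sum_add_distrib, Finset.sum_sub_distrib, ← Finset.mul_sum, hMM]
    simp [htr]
    ring
  have hentry : ∀ p q, M p q = if p = q then 1 else 0 := by
    intro p q
    have h3 := (Finset.sum_eq_zero_iff_of_nonneg (fun p _ => Finset.sum_nonneg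
      fun q _ => sq_nonneg (M p q - if p = q then (1:ℝ) else 0))).mp hz p (mem_univ p)
    have h4 := (Finset.sum_eq_zero_iff_of_nonneg (fun q _ => sq_nonneg
      (M p q - if p = q then (1:ℝ) else 0))).mp h3 q (mem_univ q)
    have h5 := pow_eq_zero_iff (n := 2) (by norm_num) |>.mp h4
    linarith
  have e3 : ∀ i, a i * (@inner ℝ _ _ (c i) y) ^ 2 =
      ∑ p, ∑ q, (a i * (c i p * c i q)) * (y p * y q) := by
    intro i
    rw [hin, sq, Finset.sum_mul_sum, Finset.mul_sum]
    refine Finset.sum_congr rfl fun p _ => ?_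
    rw [Finset.mul_sum]
    refine Finset.sum_congr rfl fun q _ => ?_
    ring
  simp only [e3]
  rw [Finset.sum_comm]
  have e4 : ∀ p, ∑ i, ∑ q, (a i * (c i p * c i q)) * (y p * y q) = y p ^ 2 := by
    intro p
    rw [Finset.sum_comm]
    have : ∀ q, ∑ i, (a i * (c i p * c i q)) * (y p * y q) = if p = q then y p ^ 2 else 0 := by
      intro q
      rw [← Finset.sum_mul]
      have h6 := hentry p q
      rw [hM] at h6
      simp only at h6
      rw [h6]
      split_ifs with h
      · subst h; ring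
      · ring
    simp only [this]
    simp
  simp only [e4]
  rw [EuclideanSpace.norm_sq_eq]
  simp

/-- A family of `k (q+1)` unit vectors in `R^(kq)` forming `k` mutually orthogonal regular
`q`-simplices covers the sphere at level `1 / (q √k)`. -/
theorem cover_of_structure {n k q : ℕ} (hq : 0 < q) (hk : 0 < k) (hn : n = k * q)
    {ι κ : Type*} [Fintype ι] [DecidableEq ι] [DecidableEq κ]
    (hcard : Fintype.card ι = n + k)
    (c : ι → EuclideanSpace ℝ (Fin n)) (hc : ∀ i, ‖c i‖ = 1) (f : ι → κ)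
    (hf : ∀ i, (univ.filter (fun j => f j = f i)).card = q + 1)
    (hin : ∀ i j, i ≠ j → f i = f j → @inner ℝ _ _ (c i) (c j) = -1 / (q : ℝ))
    (hout : ∀ i j, f i ≠ f j → @inner ℝ _ _ (c i) (c j) = 0)
    (y : EuclideanSpace ℝ (Fin n)) (hy : ‖y‖ = 1) :
    ∃ i, Real.sqrt k / n ≤ @inner ℝ _ _ (c i) y := by
  have hq' : (0:ℝ) < q := by exact_mod_cast hq
  have hk' : (0:ℝ) < k := by exact_mod_cast hk
  have hself : ∀ i, @inner ℝ _ _ (c i) (c i) = 1 := by
    intro i; rw [real_inner_self_eq_norm_sq, hc, one_pow]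
  have hnq : (n:ℝ) = k * q := by rw [hn]; push_cast; ring
  have hN : (Fintype.card ι : ℝ) = k * (q + 1) := by
    rw [hcard]; push_cast; rw [hnq]; ring
  -- generic sum over a fibre
  have hfib : ∀ i (g : ι → ℝ) (A B : ℝ), g i = A → (∀ j, j ≠ i → f j = f i → g j = B) →
      ∑ j ∈ univ.filter (fun j => f j = f i), g j = A + q * B := by
    intro i g A B hA hB
    have hi : i ∈ univ.filter (fun j => f j = f i) := by simp
    rw [← Finset.add_sum_erase _ _ hi, hA]
    rw [Finset.sum_congr rfl (g := fun _ => B)]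
    · rw [Finset.sum_const, Finset.card_erase_of_mem hi, hf]
      simp
    · intro j hj
      rw [Finset.mem_erase, Finset.mem_filter] at hj
      exact hB j hj.1 hj.2.2
  -- parseval
  have hpars : ∑ i, ((q:ℝ) / (q + 1)) * (@inner ℝ _ _ (c i) y) ^ 2 = ‖y‖ ^ 2 := by
    apply parseval_of_trace c (fun _ => (q:ℝ) / (q + 1))
    · simp only [hself]
      rw [Finset.sum_const, Finset.card_univ, nsmul_eq_mul, hN, hnq]
      field_simp
    · have h1 : ∀ i, ∑ j, ((q:ℝ) / (q + 1)) * (q / (q + 1)) * (@inner ℝ _ _ (c i) (c j)) ^ 2 =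
          (q:ℝ) / (q + 1) := by
        intro i
        rw [← Finset.mul_sum]
        have h2 : ∑ j, (@inner ℝ _ _ (c i) (c j)) ^ 2 =
            ∑ j ∈ univ.filter (fun j => f j = f i), (@inner ℝ _ _ (c i) (c j)) ^ 2 := by
          symm
          apply Finset.sum_subset (Finset.filter_subset _ _)
          intro j _ hj
          rw [Finset.mem_filter] at hj
          push Not at hj
          rw [hout i j (fun h => hj (mem_univ j) h.symm)]
          norm_num
        rw [h2, hfib i _ 1 ((1 / (q:ℝ)) ^ 2)]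
        · field_simp
        · rw [hself]; norm_num
        · intro j hj hfj
          rw [hin i j (Ne.symm hj) hfj.symm]
          ring
      simp only [h1]
      rw [Finset.sum_const, Finset.card_univ, nsmul_eq_mul, hN, hnq]
      field_simp
  -- fibre sums vanish
  have hsumc : ∀ i, ∑ j ∈ univ.filter (fun j => f j = f i), c j = 0 := by
    intro i
    have h1 : ∀ l ∈ univ.filter (fun j => f j = f i),
        @inner ℝ _ _ (c l) (∑ j ∈ univ.filter (fun j => f j = f i), c j) = 0 := by
      intro l hl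
      rw [Finset.mem_filter] at hl
      rw [inner_sum]
      have h2 : univ.filter (fun j => f j = f i) = univ.filter (fun j => f j = f l) := by
        ext j; simp [hl.2]
      rw [h2, hfib l _ 1 (-1 / (q:ℝ)) (hself l)]
      · field_simp
        ring
      · intro j hj hfj
        exact hin l j (Ne.symm hj) hfj.symm
    have h3 : @inner ℝ _ _ (∑ j ∈ univ.filter (fun j => f j = f i), c j)
        (∑ j ∈ univ.filter (fun j => f j = f i), c j) = 0 := by
      rw [sum_inner]
      exact Finset.sum_eq_zero h1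
    exact inner_self_eq_zero.mp h3
  by_contra hcon
  push Not at hcon
  set t : ℝ := Real.sqrt k / n with ht
  have hv0 : ∀ i, ∑ j ∈ univ.filter (fun j => f j = f i), @inner ℝ _ _ (c j) y = 0 := by
    intro i
    rw [← sum_inner, hsumc, inner_zero_left]
  have hge : ∀ i, -(q:ℝ) * t < @inner ℝ _ _ (c i) y := by
    intro i
    have hi : i ∈ univ.filter (fun j => f j = f i) := by simp
    have h1 := hv0 i
    rw [← Finset.add_sum_erase _ _ hi] at h1
    have hcard' : ((univ.filter (fun j => f j = f i)).erase i).card = q := by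
      rw [Finset.card_erase_of_mem hi, hf]; simp
    have hne : ((univ.filter (fun j => f j = f i)).erase i).Nonempty := by
      rw [← Finset.card_pos, hcard']; exact hq
    have h2 : ∑ j ∈ (univ.filter (fun j => f j = f i)).erase i, @inner ℝ _ _ (c j) y <
        ∑ j ∈ (univ.filter (fun j => f j = f i)).erase i, t :=
      Finset.sum_lt_sum_of_nonempty hne (fun j _ => hcon j)
    rw [Finset.sum_const, hcard', nsmul_eq_mul] at h2
    linarith
  have hne : (univ : Finset ι).Nonempty := by
    rw [← Finset.card_pos, Finset.card_univ, hcard]; omega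
  have h3 : 0 < ∑ i, (t - @inner ℝ _ _ (c i) y) * (@inner ℝ _ _ (c i) y + q * t) := by
    apply Finset.sum_pos _ hne
    intro j _
    apply mul_pos
    · linarith [hcon j]
    · linarith [hge j]
  have hsumtot : ∑ i, @inner ℝ _ _ (c i) y = 0 := by
    have h4 : ∑ i, ∑ j ∈ univ.filter (fun j => f j = f i), @inner ℝ _ _ (c j) y = 0 := by
      simp only [hv0]; simp
    have h5 : ∑ i, ∑ j ∈ univ.filter (fun j => f j = f i), @inner ℝ _ _ (c j) y =
        ∑ j, ((q:ℝ) + 1) * @inner ℝ _ _ (c j) y := by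
      simp only [Finset.sum_filter]
      rw [Finset.sum_comm]
      refine Finset.sum_congr rfl fun j _ => ?_
      rw [← Finset.sum_filter, Finset.sum_const]
      have : (univ.filter (fun i => f j = f i)) = univ.filter (fun i => f i = f j) := by
        ext i; simp [eq_comm]
      rw [this, hf, nsmul_eq_mul]
      push_cast
      ring
    rw [h5, ← Finset.mul_sum] at h4
    rcases mul_eq_zero.mp h4 with h | h
    · exfalso; linarith
    · exact h
  have h6 : ∑ i, (t - @inner ℝ _ _ (c i) y) * (@inner ℝ _ _ (c i) y + q * t) =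
      (k * (q + 1)) * (q * t ^ 2) - ∑ i, (@inner ℝ _ _ (c i) y) ^ 2 := by
    have e1 : ∀ i, (t - @inner ℝ _ _ (c i) y) * (@inner ℝ _ _ (c i) y + q * t) =
        q * t ^ 2 - (@inner ℝ _ _ (c i) y) ^ 2 + (t - q * t) * @inner ℝ _ _ (c i) y := by
      intro i; ring
    rw [Finset.sum_congr rfl (fun i _ => e1 i), Finset.sum_add_distrib, Finset.sum_sub_distrib,
      ← Finset.mul_sum (s := univ) (f := fun i => @inner ℝ _ _ (c i) y), hsumtot, Finset.sum_const,
      Finset.card_univ, nsmul_eq_mul, hN]
    ring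
  rw [h6] at h3
  rw [← Finset.mul_sum, hy] at hpars
  have h7 : ∑ i, (@inner ℝ _ _ (c i) y) ^ 2 = (q + 1) / q := by
    field_simp at hpars ⊢
    linarith
  rw [h7] at h3
  have h8 : t ^ 2 = 1 / (k * q ^ 2) := by
    rw [ht, div_pow, Real.sq_sqrt hk'.le, hnq]
    field_simp
  rw [h8] at h3
  have h9 : (k:ℝ) * (q + 1) * (q * (1 / (k * q ^ 2))) - (q + 1) / q = 0 := by
    field_simp
    ring
  linarith

end Pool.Agent.Helper484
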