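import Mathlib

/-!
Positive definiteness of the Legendre kernels `P_k(⟨x,y⟩)` on the unit sphere of `ℝ³`
for `k = 1,2,3,4,9`, by explicit addition formulas.
-/

set_option autoImplicit false

namespace Helper484.Kissing

open scoped BigOperators

/-- Euclidean 3-space. -/
abbrev E3 := EuclideanSpace ℝ (Fin 3)

/-- The first two coordinates as a complex number. -/
noncomputable def w (x : E3) : ℂ := ⟨x 0, x 1⟩

/-- Kernel that is nonnegative on finite sets of unit vectors. -/
def PSD (k : E3 → E3 → ℝ) : Prop :=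
  ∀ T : Finset E3, (∀ x ∈ T, ‖x‖ = 1) → 0 ≤ ∑ x ∈ T, ∑ y ∈ T, k x y

lemma PSD.add {k l : E3 → E3 → ℝ} (hk : PSD k) (hl : PSD l) :
    PSD (fun x y => k x y + l x y) := by
  intro T hT
  have h1 := hk T hT
  have h2 := hl T hT
  simp only [Finset.sum_add_distrib]
  linarith

lemma PSD.smul {k : E3 → E3 → ℝ} (c : ℝ) (hc : 0 ≤ c) (hk : PSD k) :
    PSD (fun x y => c * k x y) := by
  intro T hT
  have h1 := hk T hT
  simp only [← Finset.mul_sum]
  positivity

lemma PSD.congr {k l : E3 → E3 → ℝ} (hk : PSD k)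
    (h : ∀ x y : E3, ‖x‖ = 1 → ‖y‖ = 1 → l x y = k x y) : PSD l := by
  intro T hT
  have h1 := hk T hT
  rw [Finset.sum_congr rfl (fun x hx => Finset.sum_congr rfl (fun y hy => h x y (hT x hx) (hT y hy)))]
  exact h1

/-- Basic kernel. -/
noncomputable def K (A : ℝ → ℝ) (m : ℕ) (x y : E3) : ℝ :=
  A (x 2) * A (y 2) * ((w x * (starRingEnd ℂ) (w y)) ^ m).re

lemma psdK (A : ℝ → ℝ) (m : ℕ) : PSD (K A m) := by
  intro T _
  have h : ∑ x ∈ T, ∑ y ∈ T, K A m x y
      = Complex.normSq (∑ x ∈ T, (A (x 2) : ℂ) * (w x) ^ m) := by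
    have h2 : ((Complex.normSq (∑ x ∈ T, (A (x 2) : ℂ) * (w x) ^ m) : ℝ) : ℂ)
        = ∑ x ∈ T, ∑ y ∈ T, ((A (x 2) : ℂ) * (A (y 2) : ℂ)) * (w x * (starRingEnd ℂ) (w y)) ^ m := by
      rw [← Complex.mul_conj, map_sum, Finset.sum_mul_sum]
      refine Finset.sum_congr rfl (fun x _ => Finset.sum_congr rfl (fun y _ => ?_))
      simp only [map_mul, map_pow, Complex.conj_ofReal]
      ring
    have h3 := congrArg Complex.re h2
    rw [Complex.ofReal_re] at h3
    rw [h3, Complex.re_sum]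
    refine Finset.sum_congr rfl (fun x _ => ?_)
    rw [Complex.re_sum]
    refine Finset.sum_congr rfl (fun y _ => ?_)
    rw [← Complex.ofReal_mul, Complex.re_ofReal_mul]
    rfl
  rw [h]
  exact Complex.normSq_nonneg _

lemma inner_eq (x y : E3) :
    (inner ℝ x y : ℝ) = x 2 * y 2 + (w x * (starRingEnd ℂ) (w y)).re := by
  simp only [PiLp.inner_apply, Fin.sum_univ_three, w, Complex.mul_re, Complex.conj_re,
    Complex.conj_im]
  simp
  ring

lemma normSq_eq (x y : E3) (hx : ‖x‖ = 1) (hy : ‖y‖ = 1) :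
    Complex.normSq (w x * (starRingEnd ℂ) (w y)) = (1 - x 2 ^ 2) * (1 - y 2 ^ 2) := by
  have h : ∀ v : E3, ‖v‖ = 1 → Complex.normSq (w v) = 1 - v 2 ^ 2 := by
    intro v hv
    have h1 : (inner ℝ v v : ℝ) = 1 := by rw [real_inner_self_eq_norm_sq, hv]; norm_num
    simp only [PiLp.inner_apply, Fin.sum_univ_three] at h1
    simp only [w, Complex.normSq_mk]
    simp at h1
    linarith
  rw [Complex.normSq_mul, Complex.normSq_conj, h x hx, h y hy]

lemma re_rec (z : ℂ) (m : ℕ) :
    (z ^ (m + 2)).re = 2 * z.re * (z ^ (m + 1)).re - Complex.normSq z * (z ^ m).re := by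
  have h : z ^ (m + 2) = 2 * (z.re : ℂ) * z ^ (m + 1) - (Complex.normSq z : ℂ) * z ^ m := by
    have h1 : z + (starRingEnd ℂ) z = 2 * (z.re : ℂ) := by
      rw [Complex.add_conj]; push_cast; ring
    rw [← h1, ← Complex.mul_conj]
    ring
  rw [h, Complex.sub_re]
  congr 1
  · rw [show (2 : ℂ) * (z.re : ℂ) = ((2 * z.re : ℝ) : ℂ) by push_cast; ring,
      Complex.re_ofReal_mul]
  · rw [Complex.re_ofReal_mul]

/-- Legendre polynomial of degree 1. -/
noncomputable def p1 (t : ℝ) : ℝ := (t)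

/-- Legendre polynomial of degree 2. -/
noncomputable def p2 (t : ℝ) : ℝ := (3*t^2 - 1)/2

/-- Legendre polynomial of degree 3. -/
noncomputable def p3 (t : ℝ) : ℝ := (5*t^3 - 3*t)/2

/-- Legendre polynomial of degree 4. -/
noncomputable def p4 (t : ℝ) : ℝ := (35*t^4 - 30*t^2 + 3)/8

/-- Legendre polynomial of degree 9. -/
noncomputable def p9 (t : ℝ) : ℝ := (12155*t^9 - 25740*t^7 + 18018*t^5 - 4620*t^3 + 315*t)/128

lemma psd1 : PSD (fun x y => p1 (inner ℝ x y)) := by
  refine PSD.congr (PSD.add (PSD.smul (1 : ℝ) (by norm_num) (psdK (fun s => (s)) 0))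
    (PSD.smul (1 : ℝ) (by norm_num) (psdK (fun s => (1)) 1))) ?_
  intro x y hx hy
  have hin := inner_eq x y
  have hN := normSq_eq x y hx hy
  simp only [K]
  generalize hz : w x * (starRingEnd ℂ) (w y) = z at *
  have h1 : (z^1).re = z.re := by simp
  have h0 : (z^0).re = 1 := by simp
  simp only [Nat.reduceAdd] at *
  generalize z.re = a at *
  generalize x 2 = s at *
  generalize y 2 = u at *
  rw [hin]
  rw [h1, h0]
  simp only [p1]
  ring

lemma psd2 : PSD (fun x y => p2 (inner ℝ x y)) := by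
  refine PSD.congr (PSD.add (PSD.smul (1 : ℝ) (by norm_num) (psdK (fun s => (3*s^2 - 1)/2) 0))
    (PSD.add (PSD.smul (1/3 : ℝ) (by norm_num) (psdK (fun s => (3*s)) 1))
    (PSD.smul (1/12 : ℝ) (by norm_num) (psdK (fun s => (3)) 2)))) ?_
  intro x y hx hy
  have hin := inner_eq x y
  have hN := normSq_eq x y hx hy
  simp only [K]
  generalize hz : w x * (starRingEnd ℂ) (w y) = z at *
  have h2 := re_rec z 0
  have h1 : (z^1).re = z.re := by simp
  have h0 : (z^0).re = 1 := by simp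
  simp only [Nat.reduceAdd] at *
  generalize z.re = a at *
  generalize x 2 = s at *
  generalize y 2 = u at *
  rw [hin]
  rw [h1, h0, hN] at h2
  rw [h2, h1, h0]
  simp only [p2]
  ring

lemma psd3 : PSD (fun x y => p3 (inner ℝ x y)) := by
  refine PSD.congr (PSD.add (PSD.smul (1 : ℝ) (by norm_num) (psdK (fun s => (5*s^3 - 3*s)/2) 0))
    (PSD.add (PSD.smul (1/6 : ℝ) (by norm_num) (psdK (fun s => (15*s^2 - 3)/2) 1))
    (PSD.add (PSD.smul (1/60 : ℝ) (by norm_num) (psdK (fun s => (15*s)) 2))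
    (PSD.smul (1/360 : ℝ) (by norm_num) (psdK (fun s => (15)) 3))))) ?_
  intro x y hx hy
  have hin := inner_eq x y
  have hN := normSq_eq x y hx hy
  simp only [K]
  generalize hz : w x * (starRingEnd ℂ) (w y) = z at *
  have h2 := re_rec z 0
  have h3 := re_rec z 1
  have h1 : (z^1).re = z.re := by simp
  have h0 : (z^0).re = 1 := by simp
  simp only [Nat.reduceAdd] at *
  generalize z.re = a at *
  generalize x 2 = s at *
  generalize y 2 = u at *
  rw [hin]
  rw [h1, h0, hN] at h2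
  rw [h2, h1, hN] at h3
  rw [h3, h2, h1, h0]
  simp only [p3]
  ring

lemma psd4 : PSD (fun x y => p4 (inner ℝ x y)) := by
  refine PSD.congr (PSD.add (PSD.smul (1 : ℝ) (by norm_num) (psdK (fun s => (35*s^4 - 30*s^2 + 3)/8) 0))
    (PSD.add (PSD.smul (1/10 : ℝ) (by norm_num) (psdK (fun s => (35*s^3 - 15*s)/2) 1))
    (PSD.add (PSD.smul (1/180 : ℝ) (by norm_num) (psdK (fun s => (105*s^2 - 15)/2) 2))
    (PSD.add (PSD.smul (1/2520 : ℝ) (by norm_num) (psdK (fun s => (105*s)) 3))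
    (PSD.smul (1/20160 : ℝ) (by norm_num) (psdK (fun s => (105)) 4)))))) ?_
  intro x y hx hy
  have hin := inner_eq x y
  have hN := normSq_eq x y hx hy
  simp only [K]
  generalize hz : w x * (starRingEnd ℂ) (w y) = z at *
  have h2 := re_rec z 0
  have h3 := re_rec z 1
  have h4 := re_rec z 2
  have h1 : (z^1).re = z.re := by simp
  have h0 : (z^0).re = 1 := by simp
  simp only [Nat.reduceAdd] at *
  generalize z.re = a at *
  generalize x 2 = s at *
  generalize y 2 = u at *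
  rw [hin]
  rw [h1, h0, hN] at h2
  rw [h2, h1, hN] at h3
  rw [h3, h2, hN] at h4
  rw [h4, h3, h2, h1, h0]
  simp only [p4]
  ring

lemma psd9 : PSD (fun x y => p9 (inner ℝ x y)) := by
  refine PSD.congr (PSD.add (PSD.smul (1 : ℝ) (by norm_num) (psdK (fun s => (12155*s^9 - 25740*s^7 + 18018*s^5 - 4620*s^3 + 315*s)/128) 0))
    (PSD.add (PSD.smul (1/45 : ℝ) (by norm_num) (psdK (fun s => (109395*s^8 - 180180*s^6 + 90090*s^4 - 13860*s^2 + 315)/128) 1))
    (PSD.add (PSD.smul (1/3960 : ℝ) (by norm_num) (psdK (fun s => (109395*s^7 - 135135*s^5 + 45045*s^3 - 3465*s)/16) 2))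
    (PSD.add (PSD.smul (1/332640 : ℝ) (by norm_num) (psdK (fun s => (765765*s^6 - 675675*s^4 + 135135*s^2 - 3465)/16) 3))
    (PSD.add (PSD.smul (1/25945920 : ℝ) (by norm_num) (psdK (fun s => (2297295*s^5 - 1351350*s^3 + 135135*s)/8) 4))
    (PSD.add (PSD.smul (1/1816214400 : ℝ) (by norm_num) (psdK (fun s => (11486475*s^4 - 4054050*s^2 + 135135)/8) 5))
    (PSD.add (PSD.smul (1/108972864000 : ℝ) (by norm_num) (psdK (fun s => (11486475*s^3 - 2027025*s)/2) 6))
    (PSD.add (PSD.smul (1/5230697472000 : ℝ) (by norm_num) (psdK (fun s => (34459425*s^2 - 2027025)/2) 7))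
    (PSD.add (PSD.smul (1/177843714048000 : ℝ) (by norm_num) (psdK (fun s => (34459425*s)) 8))
    (PSD.smul (1/3201186852864000 : ℝ) (by norm_num) (psdK (fun s => (34459425)) 9))))))))))) ?_
  intro x y hx hy
  have hin := inner_eq x y
  have hN := normSq_eq x y hx hy
  simp only [K]
  generalize hz : w x * (starRingEnd ℂ) (w y) = z at *
  have h2 := re_rec z 0
  have h3 := re_rec z 1
  have h4 := re_rec z 2
  have h5 := re_rec z 3
  have h6 := re_rec z 4
  have h7 := re_rec z 5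
  have h8 := re_rec z 6
  have h9 := re_rec z 7
  have h1 : (z^1).re = z.re := by simp
  have h0 : (z^0).re = 1 := by simp
  simp only [Nat.reduceAdd] at *
  generalize z.re = a at *
  generalize x 2 = s at *
  generalize y 2 = u at *
  rw [hin]
  rw [h1, h0, hN] at h2
  rw [h2, h1, hN] at h3
  rw [h3, h2, hN] at h4
  rw [h4, h3, hN] at h5
  rw [h5, h4, hN] at h6
  rw [h6, h5, hN] at h7
  rw [h7, h6, hN] at h8
  rw [h8, h7, hN] at h9
  rw [h9, h8, h7, h6, h5, h4, h3, h2, h1, h0]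
  simp only [p9]
  ring

end Helper484.Kissing
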