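import Pool.Agent.Helper484.Ineq

set_option autoImplicit false
set_option linter.unusedSectionVars false
set_option linter.unusedSimpArgs false

namespace Pool.Agent.Helper484

open Finset Matrix

variable {n : ℕ} {ι : Type*} [Fintype ι] [DecidableEq ι]

namespace Wt

variable {x : ι → Fin n → ℝ} (w : Wt x)

lemma slack_identity (e : Fin n → Fin n → ℝ) (h : Fin n → ℝ)
    (he : ∀ m m', e m ⬝ᵥ e m' = if m = m' then 1 else 0)
    (hH : ∀ m, w.H *ᵥ e m = h m • e m) (hh : ∀ m, 0 < h m)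
    {I : Fin n → ι} (hI : w.p I ≠ 0) :
    ∑ j, w.pi j * ((ind I j - w.pi j) / w.pi j +
      x j ⬝ᵥ (∑ m, ((w.S I ⬝ᵥ e m) / h m) • e m)) ^ 2 =
    ∑ j, (ind I j - w.pi j) ^ 2 / w.pi j - ∑ m, (w.S I ⬝ᵥ e m) ^ 2 / h m := by
  set u : Fin n → ℝ := ∑ m, ((w.S I ⬝ᵥ e m) / h m) • e m with hu
  have h1 : ∀ j, w.pi j * ((ind I j - w.pi j) / w.pi j + x j ⬝ᵥ u) ^ 2 =
      (ind I j - w.pi j) ^ 2 / w.pi j + 2 * ((ind I j - w.pi j) * (x j ⬝ᵥ u)) +
        w.pi j * ((x j ⬝ᵥ u) * (x j ⬝ᵥ u)) := by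
    intro j
    have := (w.pi_pos j).ne'
    field_simp
    ring
  rw [Finset.sum_congr rfl (fun j _ => h1 j), Finset.sum_add_distrib, Finset.sum_add_distrib,
    ← Finset.mul_sum, ← w.H_dot]
  have h2 : ∑ j, (ind I j - w.pi j) * (x j ⬝ᵥ u) = - (w.S I ⬝ᵥ u) := by
    rw [w.S_dot' hI u]; ring
  have h3 : w.S I ⬝ᵥ u = ∑ m, (w.S I ⬝ᵥ e m) ^ 2 / h m := by
    rw [hu, dotProduct_sum]
    refine Finset.sum_congr rfl fun m _ => ?_
    rw [dotProduct_smul, smul_eq_mul]; ring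
  have h4 : w.H *ᵥ u = ∑ m, (w.S I ⬝ᵥ e m) • e m := by
    rw [hu, Matrix.mulVec_sum]
    refine Finset.sum_congr rfl fun m _ => ?_
    rw [Matrix.mulVec_smul, hH, smul_smul, div_mul_cancel₀ _ (hh m).ne']
  have h5 : (w.H *ᵥ u) ⬝ᵥ u = ∑ m, (w.S I ⬝ᵥ e m) ^ 2 / h m := by
    rw [h4, hu, sum_dotProduct]
    refine Finset.sum_congr rfl fun m _ => ?_
    rw [smul_dotProduct, dotProduct_sum, Finset.sum_eq_single m]
    · rw [dotProduct_smul, he, if_pos rfl, smul_eq_mul, smul_eq_mul]; ring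
    · intro m' _ hne
      rw [dotProduct_smul, he, if_neg (Ne.symm hne), smul_zero]
    · intro hm; exact absurd (mem_univ m) hm
  rw [h2, h5, h3]
  ring

lemma sum_ind_pi : ∑ I, w.p I * ∑ j, (ind I j - w.pi j) ^ 2 / w.pi j = n := by
  have h1 : ∑ I, w.p I * ∑ j, (ind I j - w.pi j) ^ 2 / w.pi j =
      ∑ j, (∑ I, w.p I * (ind I j - w.pi j) ^ 2) / w.pi j := by
    simp only [Finset.mul_sum, Finset.sum_div]
    rw [Finset.sum_comm]
    exact Finset.sum_congr rfl fun j _ => Finset.sum_congr rfl fun I _ => by ring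
  have h2 : ∀ j, (∑ I, w.p I * (ind I j - w.pi j) ^ 2) / w.pi j = 1 - w.pi j := by
    intro j
    have h3 : ∀ I, w.p I * (ind I j - w.pi j) ^ 2 =
        w.p I * ind I j - 2 * w.pi j * (w.p I * ind I j) + w.p I * (w.pi j) ^ 2 := by
      intro I
      have := ind_sq I j
      have h4 : (ind I j - w.pi j) ^ 2 = ind I j - 2 * w.pi j * ind I j + (w.pi j) ^ 2 := by
        calc (ind I j - w.pi j) ^ 2 = ind I j * ind I j - 2 * w.pi j * ind I j + (w.pi j) ^ 2 := by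
              ring
          _ = _ := by rw [this]
      rw [h4]; ring
    rw [Finset.sum_congr rfl (fun I _ => h3 I), Finset.sum_add_distrib, Finset.sum_sub_distrib,
      ← Finset.mul_sum, ← Finset.sum_mul, w.sum_one]
    change (w.pi j - 2 * w.pi j * w.pi j + 1 * w.pi j ^ 2) / w.pi j = 1 - w.pi j
    have := (w.pi_pos j).ne'
    field_simp
    ring
  rw [h1, Finset.sum_congr rfl (fun j _ => h2 j), Finset.sum_sub_distrib, w.sum_pi]
  simp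

lemma trace_H_le (hx : ∀ j, x j ⬝ᵥ x j ≤ 1) (e : Fin n → Fin n → ℝ) (h : Fin n → ℝ)
    (he : ∀ m m', e m ⬝ᵥ e m' = if m = m' then 1 else 0)
    (hp : ∀ u v : Fin n → ℝ, ∑ m, (u ⬝ᵥ e m) * (v ⬝ᵥ e m) = u ⬝ᵥ v)
    (hH : ∀ m, w.H *ᵥ e m = h m • e m) : ∑ m, h m ≤ Fintype.card ι - n := by
  have h1 : ∀ m, h m = ∑ j, w.pi j * ((x j ⬝ᵥ e m) * (x j ⬝ᵥ e m)) := by
    intro m
    rw [← w.H_dot, hH, smul_dotProduct, he, if_pos rfl, smul_eq_mul, mul_one]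
  rw [Finset.sum_congr rfl (fun m _ => h1 m), Finset.sum_comm]
  rw [← w.sum_pi]
  apply Finset.sum_le_sum
  intro j _
  rw [← Finset.mul_sum, hp]
  exact mul_le_of_le_one_right (w.pi_nonneg j) (hx j)

/-- The variance along a unit eigenvector and the Cauchy-Schwarz inequality. -/
lemma cs (e : Fin n → ℝ) (he : e ⬝ᵥ e = 1) :
    0 < ∑ I, w.p I * (w.S I ⬝ᵥ e) ^ 2 ∧
      1 / (∑ I, w.p I * (w.S I ⬝ᵥ e) ^ 2) ≤ ∑ I, w.p I * (y x I ⬝ᵥ e) ^ 2 := by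
  set a := ∑ I, w.p I * (w.S I ⬝ᵥ e) ^ 2 with ha
  set b := ∑ I, w.p I * (y x I ⬝ᵥ e) ^ 2 with hb
  have h1 := w.iso_S e e
  rw [he] at h1
  have key : ∀ t : ℝ, 0 ≤ b - 2 * t + t ^ 2 * a := by
    intro t
    have h2 : b - 2 * t + t ^ 2 * a = ∑ I, w.p I * (y x I ⬝ᵥ e - t * (w.S I ⬝ᵥ e)) ^ 2 := by
      have h3 : ∀ I, w.p I * (y x I ⬝ᵥ e - t * (w.S I ⬝ᵥ e)) ^ 2 =
          w.p I * (y x I ⬝ᵥ e) ^ 2 - (2 * t) * (w.p I * ((y x I ⬝ᵥ e) * (w.S I ⬝ᵥ e))) +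
            t ^ 2 * (w.p I * (w.S I ⬝ᵥ e) ^ 2) := by intro I; ring
      rw [Finset.sum_congr rfl (fun I _ => h3 I), Finset.sum_add_distrib,
        Finset.sum_sub_distrib, ← Finset.mul_sum, ← Finset.mul_sum, h1]
      ring
    rw [h2]
    exact Finset.sum_nonneg fun I _ => mul_nonneg (w.nonneg I) (sq_nonneg _)
  have ha0 : 0 ≤ a := Finset.sum_nonneg fun I _ => mul_nonneg (w.nonneg I) (sq_nonneg _)
  have hapos : 0 < a := by
    rcases ha0.lt_or_eq with h | h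
    · exact h
    · exfalso
      have := key (b / 2 + 1)
      rw [← h] at this
      linarith
  refine ⟨hapos, ?_⟩
  have := key (1 / a)
  have e1 : b - 2 * (1 / a) + (1 / a) ^ 2 * a = b - 1 / a := by
    field_simp
    ring
  rw [e1] at this
  linarith

lemma sq_norm_y (e : Fin n → Fin n → ℝ)
    (hp : ∀ u v : Fin n → ℝ, ∑ m, (u ⬝ᵥ e m) * (v ⬝ᵥ e m) = u ⬝ᵥ v) :
    ∑ I, w.p I * (y x I ⬝ᵥ y x I) = ∑ m, ∑ I, w.p I * (y x I ⬝ᵥ e m) ^ 2 := by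
  rw [Finset.sum_comm]
  refine Finset.sum_congr rfl fun I _ => ?_
  rw [← Finset.mul_sum, ← hp (y x I) (y x I)]
  congr 1
  exact Finset.sum_congr rfl fun m _ => by ring

/-- The main chain of inequalities, with all the data needed for the equality case. -/
theorem main_chain (hx : ∀ j, x j ⬝ᵥ x j ≤ 1) :
    ∃ (e : Fin n → Fin n → ℝ) (h a : Fin n → ℝ),
      (∀ m m', e m ⬝ᵥ e m' = if m = m' then 1 else 0) ∧
      (∀ u v : Fin n → ℝ, ∑ m, (u ⬝ᵥ e m) * (v ⬝ᵥ e m) = u ⬝ᵥ v) ∧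
      (∀ m, w.H *ᵥ e m = h m • e m) ∧ (∀ m, 0 < h m) ∧ (∀ m, 0 < a m) ∧
      (∑ m, h m ≤ Fintype.card ι - n) ∧
      (∑ m, a m / h m = n - ∑ I, w.p I * ∑ j, w.pi j * ((ind I j - w.pi j) / w.pi j +
        x j ⬝ᵥ (∑ m, ((w.S I ⬝ᵥ e m) / h m) • e m)) ^ 2) ∧
      (∑ m, 1 / a m ≤ ∑ I, w.p I * (y x I ⬝ᵥ y x I)) := by
  obtain ⟨e, h, he, hp, hH⟩ := exists_eigen w.H w.H_herm
  have hh : ∀ m, 0 < h m := by
    intro m
    have h1 : e m ≠ 0 := by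
      intro h0
      have := he m m
      rw [h0, if_pos rfl, dotProduct_zero] at this
      norm_num at this
    have := w.H_pos h1
    rwa [hH, smul_dotProduct, he, if_pos rfl, smul_eq_mul, mul_one] at this
  refine ⟨e, h, fun m => ∑ I, w.p I * (w.S I ⬝ᵥ e m) ^ 2, he, hp, hH, hh, ?_, ?_, ?_, ?_⟩
  · intro m
    exact (w.cs (e m) (by rw [he, if_pos rfl])).1
  · exact w.trace_H_le hx e h he hp hH
  · have h1 : ∀ I, w.p I * ∑ j, w.pi j * ((ind I j - w.pi j) / w.pi j +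
        x j ⬝ᵥ (∑ m, ((w.S I ⬝ᵥ e m) / h m) • e m)) ^ 2 =
        w.p I * ∑ j, (ind I j - w.pi j) ^ 2 / w.pi j -
          w.p I * ∑ m, (w.S I ⬝ᵥ e m) ^ 2 / h m := by
      intro I
      by_cases hI : w.p I = 0
      · rw [hI]; ring
      · rw [w.slack_identity e h he hH hh hI]; ring
    rw [Finset.sum_congr rfl (fun I _ => h1 I), Finset.sum_sub_distrib, w.sum_ind_pi]
    have h2 : ∑ I, w.p I * ∑ m, (w.S I ⬝ᵥ e m) ^ 2 / h m =
        ∑ m, (∑ I, w.p I * (w.S I ⬝ᵥ e m) ^ 2) / h m := by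
      simp only [Finset.mul_sum, Finset.sum_div]
      rw [Finset.sum_comm]
      exact Finset.sum_congr rfl fun j _ => Finset.sum_congr rfl fun I _ => by ring
    rw [h2]
    ring
  · rw [w.sq_norm_y e hp]
    exact Finset.sum_le_sum fun m _ => (w.cs (e m) (by rw [he, if_pos rfl])).2

end Wt

end Pool.Agent.Helper484
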