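import Pool.Agent.Helper484.Main

set_option autoImplicit false
set_option linter.unusedSectionVars false
set_option linter.unusedSimpArgs false

namespace Pool.Agent.Helper484

open Finset Matrix

variable {n : ℕ} {ι : Type*} [Fintype ι] [DecidableEq ι]

namespace Wt

variable {x : ι → Fin n → ℝ} (w : Wt x)

/-- numerical part of the chain -/
lemma num_chain {n : ℕ} (hn : 0 < n) (κ : ℝ) (hκ : 0 < κ) (h a : Fin n → ℝ)
    (hh : ∀ m, 0 < h m) (ha : ∀ m, 0 < a m) (h1 : ∑ m, h m ≤ κ) (B : ℝ) (hB : 0 ≤ B)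
    (h2 : ∑ m, a m / h m = n - B) :
    (n : ℝ) ^ 2 / κ ≤ ∑ m, 1 / a m ∧
      (∑ m, 1 / a m ≤ (n : ℝ) ^ 2 / κ → B = 0 ∧ ∀ m, h m = κ / n) := by
  have hn' : (0:ℝ) < n := by exact_mod_cast hn
  set θ : ℝ := κ / n with hθ
  have hθ0 : 0 < θ := div_pos hκ hn'
  have key : ∀ m, 0 ≤ 1 / (a m / θ) + (a m / θ) / (h m / θ) + h m / θ - 3 :=
    fun m => amgm (div_pos (ha m) hθ0) (div_pos (hh m) hθ0)
  have hsum : ∑ m, (1 / (a m / θ) + (a m / θ) / (h m / θ) + h m / θ - 3) =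
      θ * ∑ m, 1 / a m + (n - B) + (∑ m, h m) / θ - 3 * n := by
    rw [← h2, Finset.mul_sum, Finset.sum_div, Finset.sum_sub_distrib, Finset.sum_add_distrib,
      Finset.sum_add_distrib]
    have e1 : ∀ m, 1 / (a m / θ) = θ * (1 / a m) := by
      intro m
      have := (ha m).ne'
      field_simp
    have e2 : ∀ m, (a m / θ) / (h m / θ) = a m / h m := by
      intro m
      have := (hh m).ne'
      field_simp
    rw [Finset.sum_congr rfl (fun m _ => e1 m), Finset.sum_congr rfl (fun m _ => e2 m)]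
    simp only [Finset.sum_const, Finset.card_univ, Fintype.card_fin, nsmul_eq_mul]
    ring
  have hS0 : 0 ≤ ∑ m, (1 / (a m / θ) + (a m / θ) / (h m / θ) + h m / θ - 3) :=
    Finset.sum_nonneg fun m _ => key m
  have h3 : (∑ m, h m) / θ ≤ n := by
    rw [div_le_iff₀ hθ0, hθ]
    rw [mul_div_cancel₀ _ hn'.ne']
    exact h1
  have h4 : (n : ℝ) ^ 2 / κ = n / θ := by
    rw [hθ]; field_simp
  rw [h4]
  have h5 : (n:ℝ) / θ ≤ ∑ m, 1 / a m := by
    rw [div_le_iff₀ hθ0]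
    rw [hsum] at hS0
    linarith
  refine ⟨h5, fun hle => ?_⟩
  have h6 : θ * ∑ m, 1 / a m ≤ n := by
    calc θ * ∑ m, 1 / a m ≤ θ * (n / θ) := mul_le_mul_of_nonneg_left hle hθ0.le
      _ = n := by field_simp
  have hS1 : ∑ m, (1 / (a m / θ) + (a m / θ) / (h m / θ) + h m / θ - 3) ≤ 0 := by
    rw [hsum]; linarith
  have hB0 : B = 0 := by
    rw [hsum] at hS0
    linarith
  refine ⟨hB0, fun m => ?_⟩
  have hm : 1 / (a m / θ) + (a m / θ) / (h m / θ) + h m / θ - 3 ≤ 0 := by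
    have hz := (Finset.sum_eq_zero_iff_of_nonneg (fun m _ => key m)).mp (le_antisymm hS1 hS0)
    exact (hz m (mem_univ m)).le
  have := (amgm_eq (div_pos (ha m) hθ0) (div_pos (hh m) hθ0) hm).2
  rw [div_eq_one_iff_eq hθ0.ne'] at this
  exact this

theorem bound (hx : ∀ j, x j ⬝ᵥ x j ≤ 1) (hn : 0 < n) (hk : n < Fintype.card ι) :
    (n : ℝ) ^ 2 / (Fintype.card ι - n) ≤ ∑ I, w.p I * (y x I ⬝ᵥ y x I) := by
  obtain ⟨e, h, a, he, hp, hH, hh, ha, h1, h2, h3⟩ := w.main_chain hx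
  have hκ : (0:ℝ) < Fintype.card ι - n := by
    have : (n:ℝ) < Fintype.card ι := by exact_mod_cast hk
    linarith
  have hB : 0 ≤ ∑ I, w.p I * ∑ j, w.pi j * ((ind I j - w.pi j) / w.pi j +
        x j ⬝ᵥ (∑ m, ((w.S I ⬝ᵥ e m) / h m) • e m)) ^ 2 :=
    Finset.sum_nonneg fun I _ => mul_nonneg (w.nonneg I)
      (Finset.sum_nonneg fun j _ => mul_nonneg (w.pi_nonneg j) (sq_nonneg _))
  exact ((num_chain hn _ hκ h a hh ha h1 _ hB h2).1).trans h3

theorem rigid (hx : ∀ j, x j ⬝ᵥ x j ≤ 1) (hn : 0 < n) (hk : n < Fintype.card ι)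
    (hR : ∀ I, w.p I ≠ 0 → y x I ⬝ᵥ y x I ≤ (n : ℝ) ^ 2 / (Fintype.card ι - n)) :
    (∀ u v : Fin n → ℝ, ∑ j, w.pi j * ((x j ⬝ᵥ u) * (x j ⬝ᵥ v)) =
      (Fintype.card ι - n) / n * (u ⬝ᵥ v)) ∧
    (∀ I, w.p I ≠ 0 → ∀ j, x j ⬝ᵥ y x I = 1 - ind I j / w.pi j) ∧
    (∀ I, w.p I ≠ 0 → w.S I = (((Fintype.card ι : ℝ) - n) / n) • y x I) := by
  obtain ⟨e, h, a, he, hp, hH, hh, ha, h1, h2, h3⟩ := w.main_chain hx
  have hn' : (0:ℝ) < n := by exact_mod_cast hn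
  have hκ : (0:ℝ) < Fintype.card ι - n := by
    have : (n:ℝ) < Fintype.card ι := by exact_mod_cast hk
    linarith
  set κ : ℝ := Fintype.card ι - n with hκdef
  have hBn : ∀ I, 0 ≤ w.p I * ∑ j, w.pi j * ((ind I j - w.pi j) / w.pi j +
        x j ⬝ᵥ (∑ m, ((w.S I ⬝ᵥ e m) / h m) • e m)) ^ 2 := fun I =>
    mul_nonneg (w.nonneg I)
      (Finset.sum_nonneg fun j _ => mul_nonneg (w.pi_nonneg j) (sq_nonneg _))
  have hB : 0 ≤ ∑ I, w.p I * ∑ j, w.pi j * ((ind I j - w.pi j) / w.pi j +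
        x j ⬝ᵥ (∑ m, ((w.S I ⬝ᵥ e m) / h m) • e m)) ^ 2 :=
    Finset.sum_nonneg fun I _ => hBn I
  have hE : ∑ I, w.p I * (y x I ⬝ᵥ y x I) ≤ (n : ℝ) ^ 2 / κ := by
    calc ∑ I, w.p I * (y x I ⬝ᵥ y x I) ≤ ∑ I, w.p I * ((n : ℝ) ^ 2 / κ) := by
          apply Finset.sum_le_sum
          intro I _
          by_cases hI : w.p I = 0
          · rw [hI]; simp
          · exact mul_le_mul_of_nonneg_left (hR I hI) (w.nonneg I)
      _ = _ := by rw [← Finset.sum_mul, w.sum_one, one_mul]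
  obtain ⟨hB0, hhm⟩ := (num_chain hn κ hκ h a hh ha h1 _ hB h2).2 (h3.trans hE)
  have hHid : ∀ u, w.H *ᵥ u = (κ / n) • u := by
    intro u
    have hu : u = ∑ m, (u ⬝ᵥ e m) • e m := by
      have : ∀ v : Fin n → ℝ, u ⬝ᵥ v = (∑ m, (u ⬝ᵥ e m) • e m) ⬝ᵥ v := by
        intro v
        rw [sum_dotProduct, ← hp u v]
        exact Finset.sum_congr rfl fun m _ => by
          rw [smul_dotProduct, smul_eq_mul, dotProduct_comm v]
      exact dotProduct_eq _ _ this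
    have h4 : w.H *ᵥ (∑ m, (u ⬝ᵥ e m) • e m) = (κ / n) • ∑ m, (u ⬝ᵥ e m) • e m := by
      rw [Matrix.mulVec_sum, Finset.smul_sum]
      refine Finset.sum_congr rfl fun m _ => ?_
      rw [Matrix.mulVec_smul, hH, hhm, smul_comm]
    rwa [← hu] at h4
  have hterm : ∀ I, w.p I ≠ 0 → ∀ j, (ind I j - w.pi j) / w.pi j +
      x j ⬝ᵥ (∑ m, ((w.S I ⬝ᵥ e m) / h m) • e m) = 0 := by
    intro I hI j
    have h5 := (Finset.sum_eq_zero_iff_of_nonneg (fun I _ => hBn I)).mp hB0 I (mem_univ I)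
    have h6 := (mul_eq_zero.mp h5).resolve_left hI
    have h7 := (Finset.sum_eq_zero_iff_of_nonneg (fun j _ => mul_nonneg (w.pi_nonneg j)
      (sq_nonneg _))).mp h6 j (mem_univ j)
    have h8 := (mul_eq_zero.mp h7).resolve_left (w.pi_pos j).ne'
    exact pow_eq_zero_iff (two_ne_zero) |>.mp h8
  have huy : ∀ I, w.p I ≠ 0 → (∑ m, ((w.S I ⬝ᵥ e m) / h m) • e m) = y x I := by
    intro I hI
    apply eq_Y (w.det I hI)
    intro c
    have := hterm I hI (I c)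
    rw [ind_of_mem ⟨c, rfl⟩, zero_sub, neg_div, div_self (w.pi_pos _).ne'] at this
    linarith
  refine ⟨?_, ?_, ?_⟩
  · intro u v
    rw [← w.H_dot, hHid, smul_dotProduct, smul_eq_mul]
  · intro I hI j
    have h5 := hterm I hI j
    rw [huy I hI, sub_div, div_self (w.pi_pos j).ne'] at h5
    linarith
  · intro I hI
    rw [← huy I hI, Finset.smul_sum]
    have h5 : ∀ m, (κ / n) • ((w.S I ⬝ᵥ e m) / h m) • e m = (w.S I ⬝ᵥ e m) • e m := by
      intro m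
      rw [smul_smul, hhm]
      congr 1
      field_simp
    rw [Finset.sum_congr rfl (fun m _ => h5 m)]
    have : ∀ v : Fin n → ℝ, w.S I ⬝ᵥ v = (∑ m, (w.S I ⬝ᵥ e m) • e m) ⬝ᵥ v := by
      intro v
      rw [sum_dotProduct, ← hp (w.S I) v]
      exact Finset.sum_congr rfl fun m _ => by
        rw [smul_dotProduct, smul_eq_mul, dotProduct_comm v]
    exact dotProduct_eq _ _ this

end Wt

end Pool.Agent.Helper484
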