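import Pool.Agent.Helper484.Rigid

set_option autoImplicit false
set_option linter.unusedSectionVars false
set_option linter.unusedSimpArgs false

namespace Pool.Agent.Helper484

open Finset Matrix

variable {n : ℕ} {ι : Type*} [Fintype ι] [DecidableEq ι]

namespace Wt

variable {x : ι → Fin n → ℝ} (w : Wt x)

lemma update_notMem {I : Fin n → ι} {a : Fin n} {l : ι} (hl : l ≠ I a)
    (hinj : Function.Injective (Function.update I a l)) : l ∉ Set.range I := by
  rintro ⟨c, hc⟩
  have hca : c ≠ a := by rintro rfl; exact hl hc.symm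
  apply hca
  apply hinj
  rw [Function.update_of_ne hca, Function.update_self, hc]

/-- Consequences of rigidity for an exchange step. -/
lemma pivot_facts (hx : ∀ j, x j ⬝ᵥ x j = 1) (θ : ℝ)
    (h2 : ∀ I, w.p I ≠ 0 → ∀ j, x j ⬝ᵥ y x I = 1 - ind I j / w.pi j)
    (h3 : ∀ I, w.p I ≠ 0 → w.S I = θ • y x I)
    {I : Fin n → ι} (hI : w.p I ≠ 0) {a : Fin n} {l : ι} (hl : l ≠ I a)
    (hI' : w.p (Function.update I a l) ≠ 0) :
    l ∉ Set.range I ∧ (∀ m, m ≠ l → m ≠ I a → x m ⬝ᵥ x l = x m ⬝ᵥ x (I a)) ∧
      1 - x l ⬝ᵥ x (I a) = θ / w.pi l := by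
  have hinj := injective_of_D (w.det I hI)
  have hinj' := injective_of_D (w.det _ hI')
  have hl' : l ∉ Set.range I := update_notMem hl hinj'
  have hS : ∀ m, θ * (x m ⬝ᵥ y x (Function.update I a l)) - θ * (x m ⬝ᵥ y x I) =
      x m ⬝ᵥ x l - x m ⬝ᵥ x (I a) := by
    intro m
    have e1 : w.S (Function.update I a l) ⬝ᵥ x m - w.S I ⬝ᵥ x m =
        x l ⬝ᵥ x m - x (I a) ⬝ᵥ x m := by
      rw [w.S_dot, w.S_dot]
      have e2 : ∑ c, x (Function.update I a l c) ⬝ᵥ x m =
          x l ⬝ᵥ x m + ∑ c ∈ univ.erase a, x (I c) ⬝ᵥ x m := by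
        rw [← Finset.add_sum_erase univ _ (mem_univ a), Function.update_self]
        congr 1
        refine Finset.sum_congr rfl fun c hc => ?_
        rw [Function.update_of_ne (Finset.ne_of_mem_erase hc)]
      rw [e2, ← Finset.add_sum_erase univ (fun c => x (I c) ⬝ᵥ x m) (mem_univ a)]
      ring
    rw [h3 _ hI', h3 _ hI, smul_dotProduct, smul_dotProduct, smul_eq_mul, smul_eq_mul] at e1
    rw [dotProduct_comm (x m), dotProduct_comm (x m), dotProduct_comm (x m),
      dotProduct_comm (x m)]
    exact e1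
  refine ⟨hl', ?_, ?_⟩
  · intro m hml hma
    have h4 : ind (Function.update I a l) m = ind I m := by
      by_cases hm : m ∈ Set.range I
      · rw [ind_of_mem hm, ind_of_mem]
        obtain ⟨c, rfl⟩ := hm
        have : c ≠ a := by rintro rfl; exact hma rfl
        exact ⟨c, Function.update_of_ne this _ _⟩
      · rw [ind_of_notMem hm, ind_of_notMem]
        rintro ⟨c, hc⟩
        by_cases hca : c = a
        · subst hca
          rw [Function.update_self] at hc
          exact hml hc.symm
        · rw [Function.update_of_ne hca] at hc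
          exact hm ⟨c, hc⟩
    have h5 := hS m
    rw [h2 _ hI' m, h2 _ hI m, h4, sub_self] at h5
    linarith
  · have h5 := hS l
    have h6 : ind (Function.update I a l) l = 0 :=
      ind_of_mem ⟨a, Function.update_self _ _ _⟩
    rw [h2 _ hI' l, h2 _ hI l, h6, ind_of_notMem hl', hx] at h5
    rw [← h5]
    ring

/-- Block structure in the extremal case. -/
theorem blocks (hx : ∀ j, x j ⬝ᵥ x j = 1) (hn : 0 < n) (hk : n < Fintype.card ι)
    (hpiv : ∀ I, w.p I ≠ 0 → ∀ a, ∃ l, l ≠ I a ∧ w.p (Function.update I a l) ≠ 0)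
    (hR : ∀ I, w.p I ≠ 0 → y x I ⬝ᵥ y x I ≤ (n : ℝ) ^ 2 / (Fintype.card ι - n)) :
    ∃ (J : Finset ι) (g : ι → ι), J.card + n = Fintype.card ι ∧ (∀ i, g i ∈ J) ∧
      (∀ i j, i ≠ j → g i = g j → x i ⬝ᵥ x j = - (((Fintype.card ι : ℝ) - n) / n)) ∧
      (∀ i j, g i ≠ g j → x i ⬝ᵥ x j = 0) ∧
      (∀ j ∈ J, ((Fintype.card ι : ℝ) - n) / n *
        (((univ.filter fun i => g i = j).card : ℝ) - 1) = 1) := by
  classical
  obtain ⟨h1, h2, h3⟩ := w.rigid (fun j => (hx j).le) hn hk hR
  set θ : ℝ := ((Fintype.card ι : ℝ) - n) / n with hθ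
  obtain ⟨I, hI⟩ := w.exists_ne
  choose l hlne hlp using hpiv I hI
  have hf := fun a => w.pivot_facts hx θ h2 h3 hI (hlne a) (hlp a)
  have hD := w.det I hI
  have hinj := injective_of_D hD
  -- expansion
  have hGlt : ∀ a, 0 < 1 - x (l a) ⬝ᵥ x (I a) := by
    intro a
    rw [(hf a).2.2]
    apply div_pos _ (w.pi_pos _)
    have : (n:ℝ) < Fintype.card ι := by exact_mod_cast hk
    have hn' : (0:ℝ) < n := by exact_mod_cast hn
    rw [hθ]
    exact div_pos (by linarith) hn'
  have hE : ∀ j, j ∉ Set.range I → ∀ v, x j ⬝ᵥ v = - ∑ a ∈ univ.filter (fun a => l a = j),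
      x (I a) ⬝ᵥ v := by
    intro j hj v
    have hc : ∀ c, cramer (A x I) (x j) c = if l c = j then - D x I else 0 := by
      intro c
      have e1 := cramer_sum x I (x j) (x (I c) - x (l c))
      rw [Finset.sum_eq_single c] at e1
      · have e2 : x (I c) ⬝ᵥ (x (I c) - x (l c)) = 1 - x (l c) ⬝ᵥ x (I c) := by
          rw [dotProduct_sub, hx, dotProduct_comm (x (I c))]
        rw [e2] at e1
        by_cases hlc : l c = j
        · rw [if_pos hlc]
          have e3 : x j ⬝ᵥ (x (I c) - x (l c)) = -(1 - x (l c) ⬝ᵥ x (I c)) := by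
            rw [dotProduct_sub, ← hlc, hx]; ring
          rw [e3] at e1
          have := (hGlt c).ne'
          have e4 : (cramer (A x I) (x j) c + D x I) * (1 - x (l c) ⬝ᵥ x (I c)) = 0 := by
            linarith
          rcases mul_eq_zero.mp e4 with h | h
          · linarith
          · exact absurd h this
        · rw [if_neg hlc]
          have e3 : x j ⬝ᵥ (x (I c) - x (l c)) = 0 := by
            rw [dotProduct_sub, (hf c).2.1 j (Ne.symm hlc) (by rintro rfl; exact hj ⟨c, rfl⟩)]
            ring
          rw [e3, mul_zero] at e1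
          exact (mul_eq_zero.mp e1).resolve_right (hGlt c).ne'
      · intro b _ hb
        have : x (I b) ⬝ᵥ (x (I c) - x (l c)) = 0 := by
          rw [dotProduct_sub, (hf c).2.1 (I b) (by rintro h; exact (hf c).1 ⟨b, h⟩)
            (fun h => hb (hinj h))]
          ring
        rw [this, mul_zero]
      · intro h; exact absurd (mem_univ c) h
    have e1 := cramer_sum x I (x j) v
    have e2 : ∑ a, cramer (A x I) (x j) a * (x (I a) ⬝ᵥ v) =
        D x I * (- ∑ a ∈ univ.filter (fun a => l a = j), x (I a) ⬝ᵥ v) := by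
      rw [Finset.sum_filter, ← Finset.sum_neg_distrib, Finset.mul_sum]
      refine Finset.sum_congr rfl fun a _ => ?_
      rw [hc]
      split_ifs <;> ring
    rw [e2] at e1
    exact (mul_left_cancel₀ hD e1).symm
  -- sizes
  have hpi : ∀ j, j ∉ Set.range I →
      w.pi j * (1 + ((univ.filter (fun a => l a = j)).card : ℝ)) = 1 := by
    intro j hj
    have e1 := hE j hj (y x I)
    rw [h2 I hI j, ind_of_notMem hj] at e1
    have e2 : ∀ a, x (I a) ⬝ᵥ y x I = 1 := fun a => dot_Y hD _ a
    rw [Finset.sum_congr rfl (fun a _ => e2 a), Finset.sum_const, nsmul_eq_mul, mul_one] at e1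
    have := (w.pi_pos j).ne'
    field_simp at e1
    linarith
  have hg1 : ∀ a, x (l a) ⬝ᵥ x (I a) =
      1 - θ * (1 + ((univ.filter (fun c => l c = l a)).card : ℝ)) := by
    intro a
    have e1 := (hf a).2.2
    have e2 := hpi (l a) (hf a).1
    have := (w.pi_pos (l a)).ne'
    have e3 : θ / w.pi (l a) = θ * (1 + ((univ.filter (fun c => l c = l a)).card : ℝ)) := by
      rw [div_eq_iff this, mul_assoc, mul_comm _ (w.pi (l a)), e2, mul_one]
    linarith
  have hsize : ∀ j, j ∉ Set.range I →
      θ * ((univ.filter (fun a => l a = j)).card : ℝ) = 1 := by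
    intro j hj
    have e1 := hE j hj (x j)
    rw [hx] at e1
    have e2 : ∀ a ∈ univ.filter (fun a => l a = j), x (I a) ⬝ᵥ x j =
        1 - θ * (1 + ((univ.filter (fun c => l c = j)).card : ℝ)) := by
      intro a ha
      have hla : l a = j := (Finset.mem_filter.mp ha).2
      have := hg1 a
      rw [hla] at this
      rw [dotProduct_comm]; exact this
    rw [Finset.sum_congr rfl e2, Finset.sum_const, nsmul_eq_mul] at e1
    set c : ℝ := ((univ.filter (fun c => l c = j)).card : ℝ) with hc
    have hc0 : 0 ≤ c := Nat.cast_nonneg _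
    have e3 : (1 + c) * (θ * c - 1) = 0 := by linarith
    rcases mul_eq_zero.mp e3 with h | h
    · linarith
    · linarith
  have hg2 : ∀ a, x (l a) ⬝ᵥ x (I a) = - θ := by
    intro a
    have e1 := hg1 a
    have e2 := hsize (l a) (hf a).1
    linarith
  -- inner products
  have hin : ∀ a b, a ≠ b → l a = l b → x (I a) ⬝ᵥ x (I b) = - θ := by
    intro a b hab hl
    have e1 := (hf b).2.1 (I a) (by rintro h; exact (hf b).1 ⟨a, h⟩) (fun h => hab (hinj h))
    rw [← e1, ← hl, dotProduct_comm]
    exact hg2 a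
  have hout1 : ∀ a b, l a ≠ l b → x (l a) ⬝ᵥ x (I b) = 0 := by
    intro a b hl
    have e1 := hE (l a) (hf a).1 (x (I b))
    have e2 : ∀ c ∈ univ.filter (fun c => l c = l a), x (I c) ⬝ᵥ x (I b) =
        x (l a) ⬝ᵥ x (I b) := by
      intro c hc
      have hlc : l c = l a := (Finset.mem_filter.mp hc).2
      have hbc : I b ≠ I c := by
        intro h
        have := hinj h
        subst this
        exact hl hlc.symm
      have e3 := (hf c).2.1 (I b) (by rintro h; exact (hf c).1 ⟨b, h⟩) hbc
      rw [dotProduct_comm, ← e3, hlc, dotProduct_comm]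
    rw [Finset.sum_congr rfl e2, Finset.sum_const, nsmul_eq_mul] at e1
    set c : ℝ := ((univ.filter (fun c => l c = l a)).card : ℝ) with hc
    have hc0 : 0 ≤ c := Nat.cast_nonneg _
    have e3 : (1 + c) * (x (l a) ⬝ᵥ x (I b)) = 0 := by linarith
    rcases mul_eq_zero.mp e3 with h | h
    · linarith
    · exact h
  have hout2 : ∀ a b, l a ≠ l b → x (I a) ⬝ᵥ x (I b) = 0 := by
    intro a b hl
    have hbc : I b ≠ I a := by
      intro h
      have := hinj h
      subst this
      exact hl rfl
    have e3 := (hf a).2.1 (I b) (by rintro h; exact (hf a).1 ⟨b, h⟩) hbc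
    rw [dotProduct_comm, ← e3, dotProduct_comm]
    exact hout1 a b hl
  have hsurj : ∀ j, j ∉ Set.range I → ∃ a, l a = j := by
    intro j hj
    by_contra hcon
    push Not at hcon
    have e1 := hsize j hj
    have : univ.filter (fun a => l a = j) = ∅ :=
      Finset.filter_eq_empty_iff.mpr fun a _ => hcon a
    rw [this] at e1
    simp at e1
  have hout3 : ∀ a b, l a ≠ l b → x (l a) ⬝ᵥ x (l b) = 0 := by
    intro a b hl
    rw [dotProduct_comm, hE (l b) (hf b).1 (x (l a))]
    rw [Finset.sum_eq_zero, neg_zero]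
    intro c hc
    have hlc : l c = l b := (Finset.mem_filter.mp hc).2
    rw [dotProduct_comm]
    apply hout1
    rw [hlc]
    exact hl
  -- the labelling
  let g : ι → ι := fun i => if h : ∃ a, I a = i then l h.choose else i
  have hgI : ∀ a, g (I a) = l a := by
    intro a
    have h : ∃ c, I c = I a := ⟨a, rfl⟩
    simp only [g, dif_pos h]
    congr 1
    exact hinj h.choose_spec
  have hgJ : ∀ j, j ∉ Set.range I → g j = j := by
    intro j hj
    have h : ¬ ∃ c, I c = j := hj
    simp only [g, dif_neg h]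
  refine ⟨univ \ univ.image I, g, ?_, ?_, ?_, ?_, ?_⟩
  · have : (univ.image I).card = n := by
      rw [Finset.card_image_of_injective _ hinj]; simp
    have h4 := Finset.card_sdiff_add_card_eq_card (Finset.subset_univ (univ.image I))
    rw [this] at h4
    exact h4
  · intro i
    by_cases hi : i ∈ Set.range I
    · obtain ⟨a, rfl⟩ := hi
      rw [hgI]
      have := (hf a).1
      simpa using this
    · rw [hgJ i hi]
      simpa using hi
  · intro i j hij hgij
    by_cases hi : i ∈ Set.range I
    · obtain ⟨a, rfl⟩ := hi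
      by_cases hj : j ∈ Set.range I
      · obtain ⟨b, rfl⟩ := hj
        rw [hgI, hgI] at hgij
        exact hin a b (fun h => hij (by rw [h])) hgij
      · rw [hgI, hgJ j hj] at hgij
        rw [← hgij, dotProduct_comm]
        exact hg2 a
    · by_cases hj : j ∈ Set.range I
      · obtain ⟨b, rfl⟩ := hj
        rw [hgI, hgJ i hi] at hgij
        rw [hgij]
        exact hg2 b
      · rw [hgJ i hi, hgJ j hj] at hgij
        exact absurd hgij hij
  · intro i j hgij
    by_cases hi : i ∈ Set.range I
    · obtain ⟨a, rfl⟩ := hi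
      by_cases hj : j ∈ Set.range I
      · obtain ⟨b, rfl⟩ := hj
        rw [hgI, hgI] at hgij
        exact hout2 a b hgij
      · obtain ⟨b, rfl⟩ := hsurj j hj
        rw [hgI, hgJ _ hj] at hgij
        rw [dotProduct_comm]
        exact hout1 b a (Ne.symm hgij)
    · obtain ⟨a, rfl⟩ := hsurj i hi
      by_cases hj : j ∈ Set.range I
      · obtain ⟨b, rfl⟩ := hj
        rw [hgI, hgJ _ hi] at hgij
        exact hout1 a b hgij
      · obtain ⟨b, rfl⟩ := hsurj j hj
        rw [hgJ _ hi, hgJ _ hj] at hgij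
        exact hout3 a b hgij
  · intro j hj
    have hj' : j ∉ Set.range I := by simpa using hj
    have hfil : (univ.filter fun i => g i = j) =
        insert j ((univ.filter (fun a => l a = j)).image I) := by
      ext i
      simp only [mem_filter, mem_univ, true_and, mem_insert, mem_image]
      constructor
      · intro hgi
        by_cases hi : i ∈ Set.range I
        · obtain ⟨a, rfl⟩ := hi
          rw [hgI] at hgi
          exact Or.inr ⟨a, hgi, rfl⟩
        · rw [hgJ i hi] at hgi
          exact Or.inl hgi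
      · rintro (rfl | ⟨a, ha, rfl⟩)
        · exact hgJ _ hj'
        · rw [hgI]; exact ha
    rw [hfil, Finset.card_insert_of_notMem, Finset.card_image_of_injective _ hinj]
    · push_cast
      rw [add_sub_cancel_right]
      exact hsize j hj'
    · intro hcon
      obtain ⟨a, -, ha⟩ := Finset.mem_image.mp hcon
      exact hj' ⟨a, ha⟩

end Wt

end Pool.Agent.Helper484
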