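import Pool.Agent.Helper484.SignSum

set_option autoImplicit false
set_option linter.unusedSectionVars false
set_option linter.unusedSimpArgs false

namespace Pool.Agent.Helper484

open Finset Matrix

variable {n : ℕ} {ι : Type*} [Fintype ι] [DecidableEq ι]

/-- Summation over the `a`-th entry first. -/
lemma sum_update_zero (a : Fin n) (G s : (Fin n → ι) → ℝ)
    (hG : ∀ I l, G (Function.update I a l) = G I)
    (hs : ∀ I, ∑ l, s (Function.update I a l) = 0) : ∑ I, G I * s I = 0 := by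
  classical
  by_cases hι : IsEmpty ι
  · apply Finset.sum_eq_zero
    intro I _
    exact (hι.false (I a)).elim
  rw [not_isEmpty_iff] at hι
  let e : ((Fin n → ι) × ι) ≃ ((Fin n → ι) × ι) :=
    { toFun := fun q => (Function.update q.1 a q.2, q.1 a)
      invFun := fun q => (Function.update q.1 a q.2, q.1 a)
      left_inv := by
        rintro ⟨I, l⟩
        simp
      right_inv := by
        rintro ⟨I, l⟩
        simp }
  have h1 : ∑ q : (Fin n → ι) × ι, G q.1 * s q.1 = ∑ q : (Fin n → ι) × ι,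
      G (Function.update q.1 a q.2) * s (Function.update q.1 a q.2) := by
    rw [← Equiv.sum_comp e (fun q : (Fin n → ι) × ι => G q.1 * s q.1)]
    rfl
  rw [Fintype.sum_prod_type, Fintype.sum_prod_type] at h1
  simp only [hG, ← Finset.mul_sum, hs, mul_zero, Finset.sum_const_zero] at h1
  simp only [Finset.sum_const, Finset.card_univ, nsmul_eq_mul] at h1
  have h3 : ∑ I, G I * ((Fintype.card ι : ℝ) * s I) =
      (Fintype.card ι : ℝ) * ∑ I, G I * s I := by
    rw [Finset.mul_sum]
    exact Finset.sum_congr rfl fun I _ => by ring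
  rw [h3] at h1
  have h2 : (Fintype.card ι : ℝ) ≠ 0 := by
    exact_mod_cast Fintype.card_ne_zero
  exact (mul_eq_zero.mp h1).resolve_left h2

/-- slack as a linear functional of the right hand side -/
noncomputable def wlin (x : ι → Fin n → ℝ) (I : Fin n → ι) (j : ι) : Module.Dual ℝ (ι → ℝ) where
  toFun b := b j - x j ⬝ᵥ Y x b I
  map_add' b c := by
    have : Y x (b + c) I = Y x b I + Y x c I := by
      simp only [Y]
      rw [← Matrix.mulVec_add]
      rfl
    rw [this, dotProduct_add, Pi.add_apply]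
    ring
  map_smul' r b := by
    have : Y x (r • b) I = r • Y x b I := by
      simp only [Y]
      rw [← Matrix.mulVec_smul]
      rfl
    rw [this, dotProduct_smul, Pi.smul_apply, smul_eq_mul, smul_eq_mul, RingHom.id_apply,
      smul_eq_mul]
    ring

lemma wlin_apply (x : ι → Fin n → ℝ) (I : Fin n → ι) (j : ι) (b : ι → ℝ) :
    wlin x I j b = b j - x j ⬝ᵥ Y x b I := rfl

lemma exists_generic_dir (x : ι → Fin n → ℝ) :
    ∃ c : ι → ℝ, ∀ I : Fin n → ι, D x I ≠ 0 → ∀ j, j ∉ Set.range I → wlin x I j c ≠ 0 := by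
  obtain ⟨c, hc⟩ := Module.Dual.exists_forall_ne_zero_of_forall_exists
    (ι := {q : (Fin n → ι) × ι // D x q.1 ≠ 0 ∧ q.2 ∉ Set.range q.1})
    (fun q => wlin x q.1.1 q.1.2) (by
      rintro ⟨⟨I, j⟩, hI, hj⟩
      refine ⟨Pi.single j 1, ?_⟩
      rw [wlin_apply]
      have : Y x (Pi.single j 1) I = 0 := by
        simp only [Y]
        have h0 : (fun a => (Pi.single j (1:ℝ) : ι → ℝ) (I a)) = 0 := by
          funext a
          rw [Pi.single_eq_of_ne]
          · rfl
          · rintro h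
            exact hj ⟨a, h⟩
        rw [h0, Matrix.mulVec_zero]
      rw [this]
      simp)
  exact ⟨c, fun I hI j hj => hc ⟨⟨I, j⟩, hI, hj⟩⟩

lemma exists_generic_rhs (x : ι → Fin n → ℝ) :
    ∃ b : ι → ℝ, (∀ i, 1/2 ≤ b i ∧ b i ≤ 2) ∧
      (∀ I : Fin n → ι, D x I ≠ 0 → ∀ j, j ∉ Set.range I → x j ⬝ᵥ Y x b I ≠ b j) ∧
      (∀ I : Fin n → ι, D x I ≠ 0 → (∀ j, x j ⬝ᵥ Y x b I ≤ b j) →
        ∀ j, x j ⬝ᵥ Y x (fun _ => 1) I ≤ 1) := by
  obtain ⟨c, hc⟩ := exists_generic_dir x
  have hlin : ∀ (I : Fin n → ι) (j : ι) (ε : ℝ), wlin x I j (fun i => 1 + ε * c i) =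
      wlin x I j (fun _ => 1) + ε * wlin x I j c := by
    intro I j ε
    have : (fun i => 1 + ε * c i) = (fun _ => (1:ℝ)) + ε • c := by
      funext i; simp
    rw [this, map_add, map_smul, smul_eq_mul]
  have e1 : ∀ i : ι, ∀ᶠ ε in nhdsWithin (0:ℝ) (Set.Ioi 0), 1/2 ≤ 1 + ε * c i ∧ 1 + ε * c i ≤ 2 := by
    intro i
    have hcont : Continuous (fun ε : ℝ => 1 + ε * c i) := by fun_prop
    have h1 : ∀ᶠ ε in nhds (0:ℝ), (1/2:ℝ) < 1 + ε * c i :=
      hcont.continuousAt.eventually (lt_mem_nhds (by norm_num))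
    have h2 : ∀ᶠ ε in nhds (0:ℝ), 1 + ε * c i < 2 :=
      hcont.continuousAt.eventually (gt_mem_nhds (by norm_num))
    exact ((h1.and h2).filter_mono nhdsWithin_le_nhds).mono fun ε h => ⟨h.1.le, h.2.le⟩
  have e2 : ∀ I : Fin n → ι, ∀ j : ι, ∀ᶠ ε in nhdsWithin (0:ℝ) (Set.Ioi 0),
      (wlin x I j c ≠ 0 → wlin x I j (fun _ => 1) + ε * wlin x I j c ≠ 0) ∧
      (wlin x I j (fun _ => 1) < 0 → wlin x I j (fun _ => 1) + ε * wlin x I j c < 0) := by
    intro I j
    set W := wlin x I j (fun _ => 1) with hW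
    set k := wlin x I j c with hk
    have hcont : Continuous (fun ε : ℝ => W + ε * k) := by fun_prop
    rcases lt_trichotomy W 0 with hW0 | hW0 | hW0
    · have h1 : ∀ᶠ ε in nhds (0:ℝ), W + ε * k < 0 :=
        hcont.continuousAt.eventually (gt_mem_nhds (by simpa using hW0))
      exact (h1.filter_mono nhdsWithin_le_nhds).mono fun ε h => ⟨fun _ => h.ne, fun _ => h⟩
    · filter_upwards [self_mem_nhdsWithin] with ε hε
      refine ⟨fun hk0 => ?_, fun h => absurd h (by rw [hW0]; exact lt_irrefl _)⟩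
      rw [hW0, zero_add]
      exact mul_ne_zero (ne_of_gt hε) hk0
    · have h1 : ∀ᶠ ε in nhds (0:ℝ), 0 < W + ε * k :=
        hcont.continuousAt.eventually (lt_mem_nhds (by simpa using hW0))
      exact (h1.filter_mono nhdsWithin_le_nhds).mono fun ε h =>
        ⟨fun _ => h.ne', fun h' => absurd h' (not_lt.mpr hW0.le)⟩
  obtain ⟨ε, hε1, hε2⟩ := ((Filter.eventually_all.mpr e1).and
    (Filter.eventually_all.mpr fun I => Filter.eventually_all.mpr (e2 I))).exists
  refine ⟨fun i => 1 + ε * c i, hε1, ?_, ?_⟩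
  · intro I hI j hj heq
    have h1 := (hε2 I j).1 (hc I hI j hj)
    rw [← hlin, wlin_apply] at h1
    apply h1
    rw [heq]; ring
  · intro I hI hf j
    by_contra hcon
    push Not at hcon
    have h1 := (hε2 I j).2 (by rw [wlin_apply]; linarith)
    rw [← hlin, wlin_apply] at h1
    have := hf j
    linarith

lemma exists_feas (x : ι → Fin n → ℝ) (b : ι → ℝ) (hb : ∀ i, 0 < b i)
    (hbdd : ∃ R : ℝ, ∀ y : Fin n → ℝ, (∀ j, x j ⬝ᵥ y ≤ b j) → ∀ m, |y m| ≤ R) :
    ∃ I : Fin n → ι, Feas x b I := by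
  obtain ⟨R, hR⟩ := hbdd
  set K : Set (Fin n → ℝ) := {y | ∀ j, x j ⬝ᵥ y ≤ b j} with hK
  have hclosed : IsClosed K := by
    have : K = ⋂ j, {y | x j ⬝ᵥ y ≤ b j} := by ext y; simp [hK]
    rw [this]
    exact isClosed_iInter fun j => isClosed_le (by fun_prop) (by fun_prop)
  have hsub : K ⊆ Metric.closedBall 0 (max R 0) := by
    intro y hy
    rw [mem_closedBall_zero_iff, pi_norm_le_iff_of_nonneg (le_max_right _ _)]
    intro m
    exact (hR y hy m).trans (le_max_left _ _)
  have hcompact : IsCompact K := (isCompact_closedBall _ _).of_isClosed_subset hclosed hsub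
  have hne : K.Nonempty := ⟨0, fun j => by simpa using (hb j).le⟩
  obtain ⟨y, hyK, hymax⟩ := hcompact.exists_isMaxOn hne
    (f := fun y => y ⬝ᵥ y) (by fun_prop)
  have hspan : Submodule.span ℝ (x '' {j | x j ⬝ᵥ y = b j}) = ⊤ := by
    by_contra hcon
    obtain ⟨f, hf0, hf⟩ := Submodule.exists_le_ker_of_lt_top _ (lt_top_iff_ne_top.mpr hcon)
    set e : Fin n → ℝ := fun m => f (Pi.single m 1) with he
    have hfe : ∀ u, f u = u ⬝ᵥ e := by
      intro u
      have : u = ∑ m, u m • (Pi.single m (1:ℝ) : Fin n → ℝ) := by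
        ext k
        simp [Finset.sum_apply, Pi.single_apply]
      conv_lhs => rw [this]
      rw [map_sum]
      simp [dotProduct, he]
    have he0 : 0 < e ⬝ᵥ e := by
      rcases (dotProduct_self_star_nonneg (R := ℝ) e).lt_or_eq with h | h
      · simpa using h
      · exfalso
        apply hf0
        have h0 : e = 0 := by
          have : e ⬝ᵥ e = 0 := by simpa using h.symm
          exact dotProduct_self_eq_zero.mp this
        ext m
        simp only [LinearMap.coe_comp, Function.comp_apply, LinearMap.coe_single,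
          LinearMap.zero_comp, LinearMap.zero_apply]
        exact congrFun h0 m
    have hT : ∀ j, x j ⬝ᵥ y = b j → x j ⬝ᵥ e = 0 := by
      intro j hj
      rw [← hfe]
      exact hf (Submodule.subset_span ⟨j, hj, rfl⟩)
    have hev : ∀ j : ι, ∀ᶠ s in nhdsWithin (0:ℝ) (Set.Ioi 0),
        x j ⬝ᵥ (y + s • e) ≤ b j ∧ x j ⬝ᵥ (y - s • e) ≤ b j := by
      intro j
      by_cases hj : x j ⬝ᵥ y = b j
      · refine Filter.Eventually.of_forall fun s => ?_
        rw [dotProduct_add, dotProduct_sub, dotProduct_smul, hT j hj, hj]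
        simp
      · have hlt : x j ⬝ᵥ y < b j := lt_of_le_of_ne (hyK j) hj
        have c1 : Continuous (fun s : ℝ => x j ⬝ᵥ (y + s • e)) := by fun_prop
        have c2 : Continuous (fun s : ℝ => x j ⬝ᵥ (y - s • e)) := by fun_prop
        have h1 : ∀ᶠ s in nhds (0:ℝ), x j ⬝ᵥ (y + s • e) < b j :=
          c1.continuousAt.eventually (gt_mem_nhds (by simpa using hlt))
        have h2 : ∀ᶠ s in nhds (0:ℝ), x j ⬝ᵥ (y - s • e) < b j :=
          c2.continuousAt.eventually (gt_mem_nhds (by simpa using hlt))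
        exact ((h1.and h2).filter_mono nhdsWithin_le_nhds).mono fun ε h => ⟨h.1.le, h.2.le⟩
    obtain ⟨s, hs, hs0⟩ := ((Filter.eventually_all.mpr hev).and
      (self_mem_nhdsWithin : ∀ᶠ s in nhdsWithin (0:ℝ) (Set.Ioi 0), s ∈ Set.Ioi 0)).exists
    have m1 : (y + s • e) ⬝ᵥ (y + s • e) ≤ y ⬝ᵥ y :=
      hymax (show y + s • e ∈ K from fun j => (hs j).1)
    have m2 : (y - s • e) ⬝ᵥ (y - s • e) ≤ y ⬝ᵥ y :=
      hymax (show y - s • e ∈ K from fun j => (hs j).2)
    simp only [dotProduct_add, dotProduct_sub, add_dotProduct, sub_dotProduct,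
      dotProduct_smul, smul_dotProduct, smul_eq_mul] at m1 m2
    have hs' : 0 < s := hs0
    have : 0 < s * (s * (e ⬝ᵥ e)) := by positivity
    nlinarith
  obtain ⟨f, hfs, -, hli⟩ := Submodule.exists_fun_fin_finrank_span_eq ℝ
    (x '' {j | x j ⬝ᵥ y = b j})
  have hfr : Module.finrank ℝ (Submodule.span ℝ (x '' {j | x j ⬝ᵥ y = b j})) = n := by
    rw [hspan, finrank_top]
    simp
  choose g hg1 hg2 using hfs
  let I : Fin n → ι := fun a => g (Fin.cast hfr.symm a)
  have hDI : D x I ≠ 0 := by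
    rw [D]
    have hli2 : LinearIndependent ℝ (fun a => x (I a)) := by
      have h3 : (fun a => x (I a)) = f ∘ (Fin.cast hfr.symm) := by
        funext a
        simp [I, hg2]
      rw [h3]
      exact hli.comp _ (Fin.cast_injective _)
    have hli3 : LinearIndependent ℝ (A x I)ᵀ.row := hli2
    have := Matrix.linearIndependent_rows_iff_isUnit.mp hli3
    have h4 := (Matrix.isUnit_iff_isUnit_det _).mp this
    rw [Matrix.det_transpose] at h4
    exact h4.ne_zero
  have hY : y = Y x b I := eq_Y hDI b fun a => hg1 _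
  exact ⟨I, hDI, fun j => by rw [← hY]; exact hyK j⟩

/-- The fundamental weights on feasible bases. -/
theorem exists_weights (x : ι → Fin n → ℝ)
    (hbdd : ∃ R : ℝ, ∀ y : Fin n → ℝ, (∀ j, x j ⬝ᵥ y ≤ 1) → ∀ m, |y m| ≤ R) :
    ∃ p : (Fin n → ι) → ℝ, (∀ I, 0 ≤ p I) ∧ (∑ I, p I = 1) ∧
      (∀ I, p I ≠ 0 → D x I ≠ 0 ∧ ∀ j, x j ⬝ᵥ Y x (fun _ => 1) I ≤ 1) ∧
      (∀ u : Fin n → ℝ, ∑ I, p I * (Y x (fun _ => 1) I ⬝ᵥ u) = 0) ∧
      (∀ u v : Fin n → ℝ, ∑ I, p I * ((Y x (fun _ => 1) I ⬝ᵥ u) *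
        ∑ a, x (I a) ⬝ᵥ v) = u ⬝ᵥ v) ∧
      (∀ I, p I ≠ 0 → ∀ a, ∃ l, l ≠ I a ∧ p (Function.update I a l) ≠ 0) := by
  classical
  obtain ⟨b, hb, hgen, hfeas⟩ := exists_generic_rhs x
  obtain ⟨R, hR⟩ := hbdd
  have hbdd' : ∃ R : ℝ, ∀ y : Fin n → ℝ, (∀ j, x j ⬝ᵥ y ≤ b j) → ∀ m, |y m| ≤ R := by
    refine ⟨2 * R, fun y hy m => ?_⟩
    have h1 := hR ((1/2:ℝ) • y) (fun j => by
      rw [dotProduct_smul, smul_eq_mul]
      have := hy j
      have := (hb j).2
      linarith) m
    rw [Pi.smul_apply, smul_eq_mul, abs_mul] at h1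
    norm_num at h1
    linarith
  obtain ⟨I0, hI0⟩ := exists_feas x b (fun i => by linarith [(hb i).1]) hbdd'
  -- the weights
  set P : (Fin n → ι) → ℝ := fun I => if Feas x b I then |D x I| else 0 with hP
  set s : (Fin n → ι) → ℝ := fun I => if Feas x b I then Real.sign (D x I) else 0 with hs
  have hP0 : ∀ I, 0 ≤ P I := by
    intro I
    simp only [hP]
    split_ifs
    · exact abs_nonneg _
    · exact le_rfl
  have hPne : ∀ I, P I ≠ 0 ↔ Feas x b I := by
    intro I
    simp only [hP]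
    constructor
    · intro h
      by_contra hcon
      exact h (if_neg hcon)
    · intro h
      rw [if_pos h]
      exact abs_ne_zero.mpr h.1
  have hPs : ∀ I, P I = s I * D x I := by
    intro I
    simp only [hP, hs]
    split_ifs with h
    · rcases lt_or_gt_of_ne h.1 with h' | h'
      · rw [Real.sign_of_neg h', abs_of_neg h']; ring
      · rw [Real.sign_of_pos h', abs_of_pos h']; ring
    · ring
  have hsum : ∀ I a, ∑ l, s (Function.update I a l) = 0 := by
    intro I a
    exact sign_sum x b hgen hbdd' I a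
  have hzero : ∀ (a : Fin n) (G : (Fin n → ι) → ℝ), (∀ I l, G (Function.update I a l) = G I) →
      ∑ I, G I * s I = 0 := fun a G hG => sum_update_zero a G s hG (fun I => hsum I a)
  set Z := ∑ I, P I with hZ
  have hZpos : 0 < Z := by
    apply Finset.sum_pos' (fun I _ => hP0 I)
    exact ⟨I0, mem_univ _, lt_of_le_of_ne (hP0 I0) (Ne.symm ((hPne I0).mpr hI0))⟩
  -- D * (Y . u) = sum of cramer
  have hDY : ∀ I, P I ≠ 0 → ∀ u, D x I * (Y x (fun _ => 1) I ⬝ᵥ u) = ∑ a, cramer (A x I) u a := by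
    intro I hI u
    have hD := ((hPne I).mp hI).1
    rw [dotProduct_comm, ← cramer_sum x I u (Y x (fun _ => 1) I)]
    refine Finset.sum_congr rfl fun a _ => ?_
    rw [dot_Y hD, mul_one]
  have h1 : ∀ u : Fin n → ℝ, ∑ I, P I * (Y x (fun _ => 1) I ⬝ᵥ u) = 0 := by
    intro u
    have e1 : ∀ I, P I * (Y x (fun _ => 1) I ⬝ᵥ u) = ∑ a, cramer (A x I) u a * s I := by
      intro I
      by_cases hI : P I = 0
      · have : s I = 0 := by
          simp only [hs]
          rw [if_neg]
          intro h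
          exact (hPne I).mpr h hI
        rw [hI, this]; simp
      · rw [← Finset.sum_mul, ← hDY I hI u, hPs I]; ring
    rw [Finset.sum_congr rfl (fun I _ => e1 I), Finset.sum_comm]
    exact Finset.sum_eq_zero fun a _ => hzero a _ (fun I l => cramer_update x I a l u)
  have h2 : ∀ u v : Fin n → ℝ, ∑ I, P I * ((Y x (fun _ => 1) I ⬝ᵥ u) *
        ∑ a, x (I a) ⬝ᵥ v) = Z * (u ⬝ᵥ v) := by
    intro u v
    have e1 : ∀ I, P I * ((Y x (fun _ => 1) I ⬝ᵥ u) * ∑ a, x (I a) ⬝ᵥ v) =
        P I * (u ⬝ᵥ v) + ∑ a, (cramer (A x I) u a * ∑ c ∈ univ.erase a, x (I c) ⬝ᵥ v) * s I := by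
      intro I
      by_cases hI : P I = 0
      · have : s I = 0 := by
          simp only [hs]
          rw [if_neg]
          intro h
          exact (hPne I).mpr h hI
        rw [hI, this]; simp
      · have e2 : P I * ((Y x (fun _ => 1) I ⬝ᵥ u) * ∑ a, x (I a) ⬝ᵥ v) =
            s I * (∑ a, cramer (A x I) u a * ∑ c, x (I c) ⬝ᵥ v) := by
          rw [← Finset.sum_mul, ← hDY I hI u, hPs I]; ring
        have e3 : ∀ a, cramer (A x I) u a * ∑ c, x (I c) ⬝ᵥ v =
            cramer (A x I) u a * (x (I a) ⬝ᵥ v) +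
              cramer (A x I) u a * ∑ c ∈ univ.erase a, x (I c) ⬝ᵥ v := by
          intro a
          rw [← Finset.add_sum_erase univ (fun c => x (I c) ⬝ᵥ v) (mem_univ a)]
          ring
        rw [e2, Finset.sum_congr rfl (fun a _ => e3 a), Finset.sum_add_distrib, cramer_sum,
          mul_add, hPs I, Finset.mul_sum]
        congr 1
        · ring
        · exact Finset.sum_congr rfl fun a _ => by ring
    have h3 : ∑ I, ∑ a, (cramer (A x I) u a * ∑ c ∈ univ.erase a, x (I c) ⬝ᵥ v) * s I = 0 := by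
      rw [Finset.sum_comm]
      apply Finset.sum_eq_zero
      intro a _
      apply hzero a (fun I => cramer (A x I) u a * ∑ c ∈ univ.erase a, x (I c) ⬝ᵥ v)
      intro I l
      rw [cramer_update]
      congr 1
      refine Finset.sum_congr rfl fun c hc => ?_
      rw [Function.update_of_ne (Finset.ne_of_mem_erase hc)]
    rw [Finset.sum_congr rfl (fun I _ => e1 I), Finset.sum_add_distrib, ← Finset.sum_mul, h3,
      add_zero]
  refine ⟨fun I => P I / Z, fun I => div_nonneg (hP0 I) hZpos.le, ?_, ?_, ?_, ?_, ?_⟩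
  · rw [← Finset.sum_div, div_self hZpos.ne']
  · intro I hI
    have hPI : P I ≠ 0 := fun h => hI (by simp [h])
    have hF := (hPne I).mp hPI
    exact ⟨hF.1, hfeas I hF.1 hF.2⟩
  · intro u
    have : ∀ I, P I / Z * (Y x (fun _ => 1) I ⬝ᵥ u) = P I * (Y x (fun _ => 1) I ⬝ᵥ u) / Z :=
      fun I => by ring
    rw [Finset.sum_congr rfl (fun I _ => this I), ← Finset.sum_div, h1, zero_div]
  · intro u v
    have : ∀ I, P I / Z * ((Y x (fun _ => 1) I ⬝ᵥ u) * ∑ a, x (I a) ⬝ᵥ v) =
        P I * ((Y x (fun _ => 1) I ⬝ᵥ u) * ∑ a, x (I a) ⬝ᵥ v) / Z :=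
      fun I => by ring
    rw [Finset.sum_congr rfl (fun I _ => this I), ← Finset.sum_div, h2]
    field_simp
  · intro I hI a
    have hPI : P I ≠ 0 := fun h => hI (by simp [h])
    have hF := (hPne I).mp hPI
    by_contra hcon
    push Not at hcon
    have h3 : ∀ l, l ≠ I a → s (Function.update I a l) = 0 := by
      intro l hl
      have h4 := hcon l hl
      have h5 : P (Function.update I a l) = 0 := by
        rcases div_eq_zero_iff.mp h4 with h | h
        · exact h
        · exact absurd h hZpos.ne'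
      simp only [hs]
      rw [if_neg]
      intro h
      exact (hPne _).mpr h h5
    have h4 := hsum I a
    rw [Finset.sum_eq_single (I a) (fun l _ hl => h3 l hl) (fun h => absurd (mem_univ _) h),
      Function.update_eq_self] at h4
    simp only [hs, if_pos hF] at h4
    exact hF.1 (Real.sign_eq_zero_iff.mp h4)

end Pool.Agent.Helper484
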